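import Pool.Agent.Helper77.EV2.Mass

/-!
# Runs of crossings are bounded operators, uniformly in the word
-/

set_option autoImplicit false

namespace Pool.Agent.Helper77.EV2

open Pool.Agent.Helper78.EV2 Pool.Agent.Helper78.EV

/-- runs are bounded by `K0` in gap coordinates -/
def RunBd (s : ℂ) (N : ℕ) (K0 : ℝ) : Prop :=
  ∀ k ≤ N, ∀ w : List ℕ, (∀ a ∈ w, a + 1 < k) → ∀ (c : ℕ → ℂ) (M : ℝ), (∀ i ≤ k, ‖c i‖ ≤ M) →
    ∀ i ≤ k, ‖frun s w c i‖ ≤ K0 * M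

theorem runBd_small {s : ℂ} (hs : ‖s‖ ^ 2 + 2 * ‖s‖ ≤ 1) (N : ℕ) : RunBd s N 1 := by
  intro k _ w
  induction w with
  | nil =>
    intro _ c M hM i hi
    rw [one_mul]
    exact hM i hi
  | cons a w ih =>
    intro hw c M hM
    have ha := hw a (by simp)
    have e : frun s (a :: w) c = frun s w (fstep s c a) := rfl
    rw [e]
    apply ih fun b hb => hw b (List.mem_cons_of_mem _ hb)
    intro i hi
    unfold fstep
    by_cases h : i = a + 1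
    · subst h
      rw [Function.update_self]
      have h1 := hM a (by omega)
      have h2 := hM (a + 1) (by omega)
      have h3 := hM (a + 2) (by omega)
      have hM0 : 0 ≤ M := (norm_nonneg _).trans h1
      calc ‖-s ^ 2 * c (a + 1) + s * (c a + c (a + 2))‖ ≤
          ‖-s ^ 2 * c (a + 1)‖ + ‖s * (c a + c (a + 2))‖ := norm_add_le _ _
        _ ≤ ‖s‖ ^ 2 * M + ‖s‖ * (M + M) := by
            rw [norm_mul, norm_mul, norm_neg, norm_pow]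
            refine add_le_add (mul_le_mul_of_nonneg_left h2 (by positivity))
              (mul_le_mul_of_nonneg_left ((norm_add_le _ _).trans (add_le_add h1 h3)) (norm_nonneg _))
        _ = (‖s‖ ^ 2 + 2 * ‖s‖) * M := by ring
        _ ≤ 1 * M := mul_le_mul_of_nonneg_right hs hM0
        _ = M := one_mul M
    · rw [Function.update_of_ne h]
      exact hM i hi

theorem runBd_est (N : ℕ) {Phi : ℝ} (hPhi : 0 ≤ Phi) : ∃ th > 0, ∃ K0 ≥ (1 : ℝ), ∀ x y : ℝ, 0 < x → x ≤ Phi →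
    |y| ≤ th → RunBd (ss x y) N K0 := by
  obtain ⟨th, hth, ka, hka, K, hK, H⟩ := runEst N hPhi
  refine ⟨th, hth, 1 + K ^ 2, by nlinarith, fun x y hx hxP hy k hk w hw c M hM i hi => ?_⟩
  obtain ⟨Z, hZ, h1, _, _, h4⟩ := H k hk x y hx hxP hy w hw c
  have h5 := (h4 M hM).1
  have h6 := h1 i hi
  have h7 := hM i hi
  have h8 : ‖frun (ss x y) w c i‖ ≤ ‖frun (ss x y) w c i - c i‖ + ‖c i‖ := by
    have := norm_add_le (frun (ss x y) w c i - c i) (c i)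
    rwa [sub_add_cancel] at this
  have h9 : K * Z ≤ K * (K * M) := mul_le_mul_of_nonneg_left h5 (by linarith)
  nlinarith

/-- one crossing of two strands which go down, in masses -/
def mstep (s : ℂ) (y : ℕ → ℂ) (a : ℕ) : ℕ → ℂ := fun i =>
  if i = a then s ^ 2 * y (a + 1) else if i = a + 1 then y a + (1 - s ^ 2) * y (a + 1) else y i

/-- a run in masses -/
def mrun (s : ℂ) (w : List ℕ) (y : ℕ → ℂ) : ℕ → ℂ := w.foldl (mstep s) y

theorem cr_mstep (s : ℂ) (y : ℕ → ℂ) (a : ℕ) : Cr true s a y (mstep s y a) where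
  ne i h1 h2 := by
    unfold mstep
    rw [if_neg h1, if_neg h2]
  ovl _ := by
    unfold mstep
    rw [if_pos rfl, if_neg (by omega), if_pos rfl]
    exact ⟨rfl, rfl⟩
  ovr h := by simp at h

theorem gap_mstep {s : ℂ} (hs : s ≠ 0) {d : ℕ → Bool} {a : ℕ} (h1 : d a = true) (h2 : d (a + 1) = true)
    (y : ℕ → ℂ) : gap 1 s d (mstep s y a) = fstep s (gap 1 s d y) a :=
  (cr_mstep s y a).gap hs (by rw [h1, h2]) (by rw [h1, one_mul])

theorem gap_mrun {s : ℂ} (hs : s ≠ 0) {d : ℕ → Bool} {w : List ℕ} (hw : ∀ a ∈ w, d a = true ∧ d (a + 1) = true)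
    (y : ℕ → ℂ) : gap 1 s d (mrun s w y) = frun s w (gap 1 s d y) := by
  induction w generalizing y with
  | nil => rfl
  | cons a w ih =>
    obtain ⟨h1, h2⟩ := hw a (by simp)
    have e1 : mrun s (a :: w) y = mrun s w (mstep s y a) := rfl
    have e2 : ∀ c, frun s (a :: w) c = frun s w (fstep s c a) := fun c => rfl
    rw [e1, e2, ih (fun b hb => hw b (List.mem_cons_of_mem _ hb)), gap_mstep hs h1 h2]

theorem abs_ht_le (d : ℕ → Bool) (i : ℕ) : |ht d i| ≤ i := by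
  induction i with
  | zero => simp [ht]
  | succ i ih =>
    rw [ht_succ]
    have : |sg (d i)| = 1 := by
      unfold sg
      split_ifs <;> simp
    calc |ht d i + sg (d i)| ≤ |ht d i| + |sg (d i)| := abs_add_le _ _
      _ ≤ i + 1 := by rw [this]; linarith
      _ = ((i + 1 : ℕ) : ℤ) := by push_cast; ring

theorem norm_zpow_le {s : ℂ} (hs : s ≠ 0) (hs1 : ‖s‖ ≤ 1) {n : ℤ} {N : ℕ} (hn : |n| ≤ N) :
    ‖s ^ n‖ ≤ (‖s‖⁻¹) ^ N := by
  have h0 : 0 < ‖s‖ := norm_pos_iff.2 hs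
  have h1 : 1 ≤ ‖s‖⁻¹ := (one_le_inv₀ h0).2 hs1
  rw [norm_zpow]
  have h2 : ‖s‖ ^ n = (‖s‖⁻¹) ^ (-n) := by rw [inv_zpow, zpow_neg, inv_inv]
  rw [h2, ← zpow_natCast (‖s‖⁻¹) N]
  exact zpow_le_zpow_right₀ h1 ((neg_le_abs n).trans hn)

theorem norm_sg (b : Bool) : ‖((sg b : ℤ) : ℂ)‖ = 1 := by
  unfold sg
  split_ifs <;> simp

theorem norm_pot_le {d : ℕ → Bool} {y : ℕ → ℂ} {k : ℕ} {M : ℝ} (hM : ∀ i < k, ‖y i‖ ≤ M) {i : ℕ} (hi : i ≤ k) :
    ‖pot d y i‖ ≤ i * M := by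
  unfold pot
  refine (norm_sum_le _ _).trans ?_
  have : ∀ j ∈ Finset.range i, ‖((sg (d j) : ℤ) : ℂ) * y j‖ ≤ M := by
    intro j hj
    rw [Finset.mem_range] at hj
    rw [norm_mul, norm_sg, one_mul]
    exact hM j (by omega)
  refine (Finset.sum_le_card_nsmul _ _ _ this).trans ?_
  simp

theorem norm_gap_le {s : ℂ} (hs : s ≠ 0) (hs1 : ‖s‖ ≤ 1) {d : ℕ → Bool} {y : ℕ → ℂ} {k N : ℕ} (hk : k ≤ N)
    {M : ℝ} (hM0 : 0 ≤ M) (hM : ∀ i < k, ‖y i‖ ≤ M) {i : ℕ} (hi : i ≤ k) :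
    ‖gap 1 s d y i‖ ≤ (‖s‖⁻¹) ^ N * (N * M) := by
  unfold gap
  rw [norm_mul, one_mul]
  have h1 : |ht d i| ≤ N := (abs_ht_le d i).trans (by exact_mod_cast hi.trans hk)
  refine mul_le_mul (norm_zpow_le hs hs1 h1) ?_ (norm_nonneg _) (by positivity)
  refine (norm_pot_le hM hi).trans ?_
  apply mul_le_mul_of_nonneg_right _ hM0
  exact_mod_cast hi.trans hk

/-- the masses from the gap coordinates -/
theorem mass_eq {s : ℂ} (hs : s ≠ 0) (d : ℕ → Bool) (y : ℕ → ℂ) (i : ℕ) :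
    y i = sg (d i) * (s ^ (-ht d (i + 1)) * gap 1 s d y (i + 1) - s ^ (-ht d i) * gap 1 s d y i) := by
  unfold gap
  rw [one_mul, one_mul, ← mul_assoc, ← mul_assoc, ← zpow_add₀ hs, ← zpow_add₀ hs, neg_add_cancel, neg_add_cancel,
    zpow_zero, one_mul, one_mul, pot_succ, add_sub_cancel_left, ← mul_assoc]
  have : ((sg (d i) : ℤ) : ℂ) * ((sg (d i) : ℤ) : ℂ) = 1 := by
    unfold sg
    split_ifs <;> simp
  rw [this, one_mul]

theorem norm_mass_le {s : ℂ} (hs : s ≠ 0) (hs1 : ‖s‖ ≤ 1) {d : ℕ → Bool} {y : ℕ → ℂ} {k N : ℕ} (hk : k ≤ N)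
    {M : ℝ} (hM : ∀ i ≤ k, ‖gap 1 s d y i‖ ≤ M) {i : ℕ} (hi : i < k) :
    ‖y i‖ ≤ (‖s‖⁻¹) ^ N * (2 * M) := by
  rw [mass_eq hs d y i, norm_mul, norm_sg, one_mul]
  have h1 : |-ht d (i + 1)| ≤ N := by
    rw [abs_neg]
    exact (abs_ht_le d (i + 1)).trans (by exact_mod_cast (by omega : i + 1 ≤ N))
  have h2 : |-ht d i| ≤ N := by
    rw [abs_neg]
    exact (abs_ht_le d i).trans (by exact_mod_cast (by omega : i ≤ N))
  have h3 := hM (i + 1) (by omega)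
  have h4 := hM i (by omega)
  refine (norm_sub_le _ _).trans ?_
  rw [norm_mul, norm_mul]
  have h5 := mul_le_mul (norm_zpow_le hs hs1 h1) h3 (norm_nonneg _) (by positivity)
  have h6 := mul_le_mul (norm_zpow_le hs hs1 h2) h4 (norm_nonneg _) (by positivity)
  linarith

/-- A run is bounded in masses. -/
theorem norm_mrun_le {s : ℂ} (hs : s ≠ 0) (hs1 : ‖s‖ ≤ 1) {N : ℕ} {K0 : ℝ} (hK0 : 0 ≤ K0) (H : RunBd s N K0)
    {k : ℕ} (hk : k ≤ N) {d : ℕ → Bool} {w : List ℕ} (hw : ∀ a ∈ w, d a = true ∧ d (a + 1) = true)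
    (hw2 : ∀ a ∈ w, a + 1 < k) {y : ℕ → ℂ} {M : ℝ} (hM0 : 0 ≤ M) (hM : ∀ i < k, ‖y i‖ ≤ M) {i : ℕ} (hi : i < k) :
    ‖mrun s w y i‖ ≤ ((‖s‖⁻¹) ^ N) ^ 2 * (2 * N * K0) * M := by
  have h1 : ∀ i ≤ k, ‖gap 1 s d y i‖ ≤ (‖s‖⁻¹) ^ N * (N * M) := fun i hi => norm_gap_le hs hs1 hk hM0 hM hi
  have h2 : ∀ i ≤ k, ‖gap 1 s d (mrun s w y) i‖ ≤ K0 * ((‖s‖⁻¹) ^ N * (N * M)) := by
    rw [gap_mrun hs hw]
    exact H k hk w hw2 _ _ h1
  refine (norm_mass_le hs hs1 hk h2 hi).trans (le_of_eq ?_)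
  ring

end Pool.Agent.Helper77.EV2
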