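import Pool.Agent.Helper77.EV2.Lower
import Pool.Agent.Helper27.EV2.Rec

/-!
# A word of rows as a chain of slices
-/

set_option autoImplicit false

namespace Pool.Agent.Helper77.EV2

open Pool.Agent.Helper27.EV2 (Word Row Ext row lv maxima crossings flow fext nb lab Q Qm ps GG)
open Pool.Agent.Helper85.Exp (St)

/-- the extrema -/
def xt (W : Word) (r : ℕ) : Xt :=
  match (row W r).e with
  | .mx k _ => .mx k
  | .mn k => .mn k

theorem xt_mx {W : Word} {r k : ℕ} {d : Bool} (h : (row W r).e = .mx k d) : xt W r = .mx k := by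
  unfold xt
  rw [h]

theorem xt_mn {W : Word} {r k : ℕ} (h : (row W r).e = .mn k) : xt W r = .mn k := by
  unfold xt
  rw [h]

theorem of_xt_mx {W : Word} {r k : ℕ} (h : xt W r = .mx k) : ∃ d, (row W r).e = .mx k d := by
  unfold xt at h
  cases he : (row W r).e with
  | mx k' d =>
    rw [he] at h
    simp only [Xt.mx.injEq] at h
    exact ⟨d, by rw [h]⟩
  | mn k' =>
    rw [he] at h
    simp at h

theorem of_xt_mn {W : Word} {r k : ℕ} (h : xt W r = .mn k) : (row W r).e = .mn k := by
  unfold xt at h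
  cases he : (row W r).e with
  | mx k' d =>
    rw [he] at h
    simp at h
  | mn k' =>
    rw [he] at h
    simp only [Xt.mn.injEq] at h
    rw [h]

theorem row_eq {W : Word} {r : ℕ} (hr : r < W.length) : row W r = W[r] := by
  unfold Helper27.EV2.row
  rw [List.getD_eq_getElem _ _ hr]

theorem lv_zero (W : Word) : lv W 0 = [] := by
  unfold Helper27.EV2.lv
  simp

theorem lv_succ {W : Word} {r : ℕ} (hr : r < W.length) : lv W (r + 1) = (row W r).e.act (lv W r) := by
  unfold Helper27.EV2.lv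
  rw [List.take_succ_eq_append_getElem hr, List.foldl_append, row_eq hr]
  rfl

/-- the directions -/
def dd (W : Word) (r j : ℕ) : Bool := (lv W r).getD j false

/-- the number of strands -/
def kk (W : Word) (r : ℕ) : ℕ := (lv W r).length

theorem getD_of_getElem? {l : List Bool} {i : ℕ} {d : Bool} (h : l[i]? = some d) : i < l.length ∧ l.getD i false = d := by
  obtain ⟨h1, h2⟩ := List.getElem?_eq_some_iff.1 h
  exact ⟨h1, by rw [List.getD_eq_getElem _ _ h1, h2]⟩

/-- insertion in a list of directions -/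
theorem ins_dir {l : List Bool} {k : ℕ} (hk : k ≤ l.length) (d : Bool) :
    (l.take k ++ d :: (!d) :: l.drop k).length = l.length + 2 ∧
    (∀ i < k, (l.take k ++ d :: (!d) :: l.drop k).getD i false = l.getD i false) ∧
    (l.take k ++ d :: (!d) :: l.drop k).getD k false = d ∧
    (l.take k ++ d :: (!d) :: l.drop k).getD (k + 1) false = !d ∧
    (∀ i, k ≤ i → (l.take k ++ d :: (!d) :: l.drop k).getD (i + 2) false = l.getD i false) := by
  have hlen : (l.take k).length = k := by rw [List.length_take]; omega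
  refine ⟨?_, ?_, ?_, ?_, ?_⟩
  · simp only [List.length_append, List.length_cons, List.length_take, List.length_drop]
    omega
  · intro i hi
    rw [List.getD_append _ _ _ _ (by omega)]
    simp only [List.getD_eq_getElem?_getD, List.getElem?_take, hi, if_true]
  · rw [List.getD_append_right _ _ _ _ (by omega), hlen, Nat.sub_self]
    rfl
  · rw [List.getD_append_right _ _ _ _ (by omega), hlen, show k + 1 - k = 1 by omega]
    rfl
  · intro i hi
    rw [List.getD_append_right _ _ _ _ (by omega), hlen, show i + 2 - k = (i - k) + 2 by omega]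
    show (l.drop k).getD (i - k) false = _
    simp only [List.getD_eq_getElem?_getD, List.getElem?_drop]
    rw [show k + (i - k) = i by omega]

/-- deletion in a list of directions -/
theorem del_dir {l : List Bool} {k : ℕ} (hk : k + 2 ≤ l.length) :
    l.length = (l.take k ++ l.drop (k + 2)).length + 2 ∧
    (∀ i < k, (l.take k ++ l.drop (k + 2)).getD i false = l.getD i false) ∧
    (∀ i, k ≤ i → (l.take k ++ l.drop (k + 2)).getD i false = l.getD (i + 2) false) := by
  have hlen : (l.take k).length = k := by rw [List.length_take]; omega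
  refine ⟨?_, ?_, ?_⟩
  · simp only [List.length_append, List.length_take, List.length_drop]
    omega
  · intro i hi
    rw [List.getD_append _ _ _ _ (by omega)]
    simp only [List.getD_eq_getElem?_getD, List.getElem?_take, hi, if_true]
  · intro i hi
    rw [List.getD_append_right _ _ _ _ (by omega), hlen]
    simp only [List.getD_eq_getElem?_getD, List.getElem?_drop]
    rw [show k + 2 + (i - k) = i + 2 by omega]

/-- the masses before the word -/
noncomputable def YY (W : Word) (s : ℂ) (ξ η : ℕ → ℂ) : ℕ → ℕ → ℂ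
  | 0 => 0
  | r + 1 => fext (row W r).e (nb W r) ξ η (flow W (s ^ 2) (s ^ 2)⁻¹ ps ξ η r)

/-- the masses after the word -/
noncomputable def ZZ (W : Word) (s : ℂ) (ξ η : ℕ → ℂ) (r : ℕ) : ℕ → ℂ := flow W (s ^ 2) (s ^ 2)⁻¹ ps ξ η r

theorem fl_pos (s ti : ℂ) (k : ℕ) (u : ℕ → ℂ) : Helper27.EV2.fl (s ^ 2) ti St.pos k u = mstep s u k := by
  funext j
  unfold Helper27.EV2.fl mstep
  simp only [smul_eq_mul]

theorem frun_eq (s ti : ℂ) (σ : ℕ → St) (hσ : ∀ i, σ i = .pos) (w : List ℕ) (u : ℕ → ℂ) {i : ℕ} (hi : i ≤ w.length) :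
    Helper27.EV2.frun (s ^ 2) ti σ w u i = mrun s (w.take i) u := by
  induction i with
  | zero => rfl
  | succ i ih =>
    have e : Helper27.EV2.frun (s ^ 2) ti σ w u (i + 1) =
        Helper27.EV2.fl (s ^ 2) ti (σ i) (w.getD i 0) (Helper27.EV2.frun (s ^ 2) ti σ w u i) := rfl
    rw [e, ih (by omega), hσ, fl_pos, List.take_succ_eq_append_getElem (by omega : i < w.length),
      List.getD_eq_getElem _ _ (by omega : i < w.length)]
    unfold mrun
    rw [List.foldl_append]
    rfl

theorem ZZ_succ (W : Word) (s : ℂ) (ξ η : ℕ → ℂ) (r : ℕ) :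
    ZZ W s ξ η (r + 1) = mrun s (row W r).w (YY W s ξ η (r + 1)) := by
  have e : ZZ W s ξ η (r + 1) = Helper27.EV2.frun (s ^ 2) (s ^ 2)⁻¹ (ps r) (row W r).w (YY W s ξ η (r + 1))
      (row W r).w.length := rfl
  rw [e, frun_eq s (s ^ 2)⁻¹ (ps r) (fun i => rfl) (row W r).w _ le_rfl, List.take_length]

/-- the facts about the labels of the upward strands -/
structure Lb (W : Word) (t ti : ℂ) : Prop where
  up : ∀ (ξ η : ℕ → ℂ) (r : ℕ), r ≤ W.length → ∀ j : ℕ, (lv W r)[j]? = some false →
    flow W t ti ps ξ η r j = η (lab W r j)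
  dn : ∀ (ξ η η' : ℕ → ℂ) (r : ℕ), r ≤ W.length → ∀ j : ℕ, (lv W r)[j]? = some true →
    flow W t ti ps ξ η r j = flow W t ti ps ξ η' r j
  q : ∀ (ξ : ℕ → ℂ) (r : ℕ), r < W.length → ∀ k : ℕ, (row W r).e = .mn k →
    (((lv W r)[k]? = some true ∧ (lv W r)[k + 1]? = some false) ∧
      Q W t ti ps ξ (lab W r (k + 1)) = flow W t ti ps ξ 0 r k) ∨
    (((lv W r)[k]? = some false ∧ (lv W r)[k + 1]? = some true) ∧
      Q W t ti ps ξ (lab W r k) = flow W t ti ps ξ 0 r (k + 1))
  sum : ∀ (ξ : ℕ → ℂ) (i : ℕ),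
    Q W t ti ps ξ i = ∑ j : Fin (maxima W), ξ j * Q W t ti ps (fun a => if a = (j : ℕ) then (1 : ℂ) else 0) i

/-- A word is a chain if the upward strands carry the arriving masses. -/
theorem chain_rows {W : Word} (hW : Helper27.EV2.Ok W) {s : ℂ} (hL : Lb W (s ^ 2) (s ^ 2)⁻¹) (ξ : ℕ → ℂ) :
    Chain s W.length (xt W) (fun r => (row W r).w) (kk W) (dd W)
      (YY W s ξ (Q W (s ^ 2) (s ^ 2)⁻¹ ps ξ)) (ZZ W s ξ (Q W (s ^ 2) (s ^ 2)⁻¹ ps ξ)) where
  k0 := by
    unfold kk
    rw [lv_zero]
    rfl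
  kn := by
    unfold kk
    rw [hW.closed]
    rfl
  letters r hr a ha := by
    obtain ⟨h1, h2⟩ := hW.cr r hr a ha
    obtain ⟨h3, h4⟩ := getD_of_getElem? h1
    obtain ⟨h5, h6⟩ := getD_of_getElem? h2
    exact ⟨h5, h4, h6⟩
  run r _ := ZZ_succ W s ξ _ r
  mx r hr j hx := by
    obtain ⟨d, he⟩ := of_xt_mx hx
    have hok := hW.ext r hr
    rw [he] at hok
    have hok' : j ≤ (lv W r).length := hok
    have hlv : lv W (r + 1) = (lv W r).take j ++ d :: (!d) :: (lv W r).drop j := by
      rw [lv_succ hr, he]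
      rfl
    obtain ⟨i1, i2, i3, i4, i5⟩ := ins_dir hok' d
    have hY : YY W s ξ (Q W (s ^ 2) (s ^ 2)⁻¹ ps ξ) (r + 1) =
        Helper27.EV2.ins j (if d then ξ (nb W r) else Q W (s ^ 2) (s ^ 2)⁻¹ ps ξ (nb W r))
          (if d then Q W (s ^ 2) (s ^ 2)⁻¹ ps ξ (nb W r) else ξ (nb W r))
          (ZZ W s ξ (Q W (s ^ 2) (s ^ 2)⁻¹ ps ξ) r) := by
      show fext (row W r).e (nb W r) ξ _ _ = _
      rw [he]
      rfl
    refine ⟨by unfold kk; rw [hlv, i1], ?_⟩
    constructor
    · exact hok'
    · intro i hi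
      unfold dd
      rw [hlv, i2 i hi]
    · intro i hi _
      unfold dd
      rw [hlv, i5 i hi]
    · unfold dd
      rw [hlv, i3, i4]
    · intro i hi
      rw [hY]
      unfold Helper27.EV2.ins
      rw [if_pos hi]
    · intro i hi _
      rw [hY]
      unfold Helper27.EV2.ins
      rw [if_neg (by omega), if_neg (by omega), if_neg (by omega), Nat.add_sub_cancel]
  mn r hr j hx := by
    have he := of_xt_mn hx
    have hok := hW.ext r hr
    rw [he] at hok
    obtain ⟨d, hd1, hd2⟩ := hok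
    obtain ⟨hl1, hg1⟩ := getD_of_getElem? hd1
    obtain ⟨hl2, hg2⟩ := getD_of_getElem? hd2
    have hlv : lv W (r + 1) = (lv W r).take j ++ (lv W r).drop (j + 2) := by
      rw [lv_succ hr, he]
      rfl
    obtain ⟨i1, i2, i3⟩ := del_dir (l := lv W r) (k := j) (by omega)
    have hY : YY W s ξ (Q W (s ^ 2) (s ^ 2)⁻¹ ps ξ) (r + 1) =
        Helper27.EV2.del j (ZZ W s ξ (Q W (s ^ 2) (s ^ 2)⁻¹ ps ξ) r) := by
      show fext (row W r).e (nb W r) ξ _ _ = _
      rw [he]
      rfl
    have hlen : (lv W (r + 1)).length + 2 = (lv W r).length := by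
      rw [hlv]
      exact i1.symm
    refine ⟨hlen.symm, ?_, ?_⟩
    · constructor
      · unfold kk
        omega
      · intro i hi
        unfold dd
        rw [hlv, i2 i hi]
      · intro i hi _
        unfold dd
        rw [hlv, i3 i hi]
      · unfold dd
        rw [hg1, hg2]
      · intro i hi
        rw [hY]
        unfold Helper27.EV2.del
        rw [if_pos hi]
      · intro i hi _
        rw [hY]
        unfold Helper27.EV2.del
        rw [if_neg (by omega)]
    · unfold ZZ
      rcases hL.q ξ r hr j he with ⟨⟨h1, h2⟩, h3⟩ | ⟨⟨h1, h2⟩, h3⟩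
      · rw [hL.up ξ _ r hr.le (j + 1) h2, h3]
        exact hL.dn ξ _ _ r hr.le j h1
      · rw [hL.up ξ _ r hr.le j h1, h3]
        exact (hL.dn ξ _ _ r hr.le (j + 1) h2).symm

end Pool.Agent.Helper77.EV2
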