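import Pool.Agent.Helper77.EV2.Leaf
import Pool.Agent.Helper48.EV2.Label

/-!
# EV2: the leaves R10 and R11
-/

set_option autoImplicit false

namespace Pool.Agent.Helper77.EV2

open Polynomial
open Pool.Agent.Helper27.EV2 (Word maxima GP)

theorem lb (W : Word) (hW : Helper27.EV2.Ok W) (t ti : ℂ) : Lb W t ti where
  up ξ η _ hr _ hj := (Helper48.EV2.flow_up hW t ti _ ξ η hr hj).1
  dn ξ η η' _ hr _ hj := Helper48.EV2.flow_dn hW t ti _ ξ η η' hr hj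
  q ξ _ hr _ hk := Helper48.EV2.Q_eq hW t ti _ ξ hr hk
  sum ξ i := Helper59.EV2.Q_sum' t ti _ ξ i

/-- R10 -/
theorem h1 (b : ℕ) (Φ : ℝ) (hΦ : 0 < Φ) : ∃ th : ℝ, 0 < th ∧ ∃ a : ℕ, ∃ c : ℝ, 0 < c ∧ ∃ K : ℝ,
    ∀ W : Word, Helper27.EV2.Ok W → W ≠ [] → Helper27.EV2.Conn W → maxima W ≤ b → ∀ x y : ℝ, 0 < x → x ≤ Φ → |y| ≤ th →
      c * x ^ a ≤ ‖aeval (Complex.exp (-(2 * (x + y * Complex.I)))) (GP W)‖ ∧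
      ‖aeval (Complex.exp (-(2 * (x + y * Complex.I)))) (GP W)‖ ≤ K :=
  h1_of lb b Φ hΦ

/-- R11 -/
theorem h4 (b : ℕ) : ∃ t₀ : ℝ, 0 < t₀ ∧ ∃ K : ℝ, ∀ W : Word, Helper27.EV2.Ok W → W ≠ [] → maxima W ≤ b →
    ∀ t : ℂ, ‖t‖ ≤ t₀ → ‖aeval t (GP W)‖ ≤ K :=
  h4_of lb b

end Pool.Agent.Helper77.EV2
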