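import Pool.Agent.Helper77.EV2.Ins

/-!
# A diagram with upright crossings as a chain of slices, masses
-/

set_option autoImplicit false

namespace Pool.Agent.Helper77.EV2

open Pool.Agent.Helper78.EV2 Pool.Agent.Helper78.EV

/-- an extremum -/
inductive Xt
  | mx (j : ℕ)
  | mn (j : ℕ)

/-- A diagram of `n` rows: row `r` is the extremum `x r` and then the word `w r`. `k r, D r`: number and
directions of the strands after the row `r - 1`; `Y r`: the masses before, `Z r`: the masses after the word of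
the row `r - 1`. -/
structure Chain (s : ℂ) (n : ℕ) (x : ℕ → Xt) (w : ℕ → List ℕ) (k : ℕ → ℕ) (D : ℕ → ℕ → Bool)
    (Y Z : ℕ → ℕ → ℂ) : Prop where
  k0 : k 0 = 0
  kn : k n = 0
  letters : ∀ r < n, ∀ a ∈ w r, a + 1 < k (r + 1) ∧ D (r + 1) a = true ∧ D (r + 1) (a + 1) = true
  run : ∀ r < n, Z (r + 1) = mrun s (w r) (Y (r + 1))
  mx : ∀ r < n, ∀ j, x r = .mx j → k (r + 1) = k r + 2 ∧ Ins j (k r) (D (r + 1)) (Y (r + 1)) (D r) (Z r)
  mn : ∀ r < n, ∀ j, x r = .mn j → k r = k (r + 1) + 2 ∧ Ins j (k (r + 1)) (D r) (Z r) (D (r + 1)) (Y (r + 1)) ∧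
    Z r j = Z r (j + 1)

/-- positions which are not touched -/
theorem mrun_ne {s : ℂ} {w : List ℕ} {i : ℕ} (h : ∀ a ∈ w, i ≠ a ∧ i ≠ a + 1) (y : ℕ → ℂ) : mrun s w y i = y i := by
  induction w generalizing y with
  | nil => rfl
  | cons a w ih =>
    have e : mrun s (a :: w) y = mrun s w (mstep s y a) := rfl
    rw [e, ih fun b hb => h b (List.mem_cons_of_mem _ hb)]
    obtain ⟨h1, h2⟩ := h a (by simp)
    unfold mstep
    rw [if_neg h1, if_neg h2]

/-- the masses on the other strands do not matter -/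
theorem mrun_congr {s : ℂ} {d : ℕ → Bool} {w : List ℕ} (hw : ∀ a ∈ w, d a = true ∧ d (a + 1) = true)
    {y y' : ℕ → ℂ} (h : ∀ i, d i = true → y i = y' i) {i : ℕ} (hi : d i = true) : mrun s w y i = mrun s w y' i := by
  induction w generalizing y y' with
  | nil => exact h i hi
  | cons a w ih =>
    have e : ∀ y, mrun s (a :: w) y = mrun s w (mstep s y a) := fun y => rfl
    rw [e, e]
    apply ih fun b hb => hw b (List.mem_cons_of_mem _ hb)
    intro m hm
    obtain ⟨h1, h2⟩ := hw a (by simp)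
    unfold mstep
    split_ifs
    · rw [h _ h2]
    · rw [h _ h1, h _ h2]
    · exact h m hm

section

variable {s : ℂ} {n : ℕ} {x : ℕ → Xt} {w : ℕ → List ℕ} {k : ℕ → ℕ} {D : ℕ → ℕ → Bool} {Y Z : ℕ → ℕ → ℂ}

theorem Chain.up (C : Chain s n x w k D Y Z) {r : ℕ} (hr : r < n) {i : ℕ} (hi : D (r + 1) i = false) :
    Z (r + 1) i = Y (r + 1) i := by
  rw [C.run r hr, mrun_ne]
  intro a ha
  obtain ⟨_, h1, h2⟩ := C.letters r hr a ha
  constructor
  · rintro rfl
    rw [hi] at h1
    simp at h1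
  · rintro rfl
    rw [hi] at h2
    simp at h2

/-- the masses on the strands which go down -/
theorem Chain.down_le (C : Chain s n x w k D Y Z) {A M : ℝ} (hA : 1 ≤ A) (hM : 0 ≤ M)
    (hrun : ∀ r < n, ∀ B : ℝ, 0 ≤ B → (∀ i < k (r + 1), D (r + 1) i = true → ‖Y (r + 1) i‖ ≤ B) →
      ∀ i < k (r + 1), D (r + 1) i = true → ‖Z (r + 1) i‖ ≤ A * B)
    (hbirth : ∀ r < n, ∀ j, x r = .mx j → (D (r + 1) j = true → ‖Y (r + 1) j‖ ≤ M) ∧
      (D (r + 1) (j + 1) = true → ‖Y (r + 1) (j + 1)‖ ≤ M)) :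
    ∀ r ≤ n, ∀ i < k r, D r i = true → ‖Z r i‖ ≤ A ^ r * M := by
  intro r
  induction r with
  | zero =>
    intro _ i hi
    rw [C.k0] at hi
    omega
  | succ r ih =>
    intro hr i hi hd
    have hr' : r < n := by omega
    have ih' := ih hr'.le
    have hAr : 1 ≤ A ^ r := one_le_pow₀ hA
    rw [pow_succ', mul_assoc]
    refine hrun r hr' (A ^ r * M) (by positivity) ?_ i hi hd
    intro i hi hd
    cases hx : x r with
    | mx j =>
      obtain ⟨hk, hI⟩ := C.mx r hr' j hx
      obtain ⟨b1, b2⟩ := hbirth r hr' j hx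
      have hM' : M ≤ A ^ r * M := by nlinarith
      rcases Nat.lt_trichotomy i j with h | h | h
      · rw [hI.yl i h]
        rw [hI.dl i h] at hd
        exact ih' i (by have := hI.le; omega) hd
      · subst h
        exact (b1 hd).trans hM'
      · by_cases h2 : i = j + 1
        · subst h2
          exact (b2 hd).trans hM'
        · obtain ⟨m, rfl⟩ : ∃ m, i = m + 2 := ⟨i - 2, by omega⟩
          rw [hI.yr m (by omega) (by omega)]
          rw [hI.dr m (by omega) (by omega)] at hd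
          exact ih' m (by omega) hd
    | mn j =>
      obtain ⟨hk, hI, _⟩ := C.mn r hr' j hx
      rcases Nat.lt_or_ge i j with h | h
      · rw [← hI.yl i h]
        rw [← hI.dl i h] at hd
        exact ih' i (by omega) hd
      · rw [← hI.yr i h hi]
        rw [← hI.dr i h hi] at hd
        exact ih' (i + 2) (by omega) hd

/-- the masses on the strands which go up -/
theorem Chain.up_le (C : Chain s n x w k D Y Z) {B : ℝ}
    (hdown : ∀ r ≤ n, ∀ i < k r, D r i = true → ‖Z r i‖ ≤ B) :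
    ∀ m r, r + m = n → ∀ i < k r, D r i = false → ‖Z r i‖ ≤ B := by
  intro m
  induction m with
  | zero =>
    intro r hr i hi
    have : r = n := by omega
    subst this
    rw [C.kn] at hi
    omega
  | succ m ih =>
    intro r hr i hi hd
    have hr' : r < n := by omega
    have ih' : ∀ i < k (r + 1), D (r + 1) i = false → ‖Y (r + 1) i‖ ≤ B := by
      intro i hi hd
      rw [← C.up hr' hd]
      exact ih (r + 1) (by omega) i hi hd
    cases hx : x r with
    | mx j =>
      obtain ⟨hk, hI⟩ := C.mx r hr' j hx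
      rcases Nat.lt_or_ge i j with h | h
      · rw [← hI.yl i h]
        rw [← hI.dl i h] at hd
        exact ih' i (by omega) hd
      · rw [← hI.yr i h hi]
        rw [← hI.dr i h hi] at hd
        exact ih' (i + 2) (by omega) hd
    | mn j =>
      obtain ⟨hk, hI, hjj⟩ := C.mn r hr' j hx
      have hjle := hI.le
      have h0 := hI.opp
      rcases Nat.lt_trichotomy i j with h | h | h
      · rw [hI.yl i h]
        rw [hI.dl i h] at hd
        exact ih' i (by omega) hd
      · subst h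
        rw [hjj]
        apply hdown r hr'.le (i + 1) (by omega)
        rw [h0, hd]
        rfl
      · by_cases h2 : i = j + 1
        · subst h2
          rw [← hjj]
          apply hdown r hr'.le j (by omega)
          rw [hd] at h0
          simpa using h0.symm
        · obtain ⟨m', rfl⟩ : ∃ m', i = m' + 2 := ⟨i - 2, by omega⟩
          rw [hI.yr m' (by omega) (by omega)]
          rw [hI.dr m' (by omega) (by omega)] at hd
          exact ih' m' (by omega) hd

/-- **Upper bound**: the masses are bounded by the masses at the births. -/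
theorem Chain.upper (C : Chain s n x w k D Y Z) (hs : s ≠ 0) (hs1 : ‖s‖ ≤ 1) {N : ℕ} {K0 : ℝ} (hK0 : 1 ≤ K0)
    (H : RunBd s N K0) (hk : ∀ r ≤ n, k r ≤ N) (hn : n ≤ N) {M : ℝ} (hM : 0 ≤ M)
    (hbirth : ∀ r < n, ∀ j, x r = .mx j → (D (r + 1) j = true → ‖Y (r + 1) j‖ ≤ M) ∧
      (D (r + 1) (j + 1) = true → ‖Y (r + 1) (j + 1)‖ ≤ M)) :
    ∀ r ≤ n, ∀ i < k r, ‖Z r i‖ ≤ (((‖s‖⁻¹) ^ N) ^ 2 * (2 * N * K0) + 1) ^ N * M := by
  obtain ⟨A, hA⟩ : ∃ A, A = ((‖s‖⁻¹) ^ N) ^ 2 * (2 * N * K0) + 1 := ⟨_, rfl⟩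
  have hA1 : 1 ≤ A := by
    rw [hA]
    have : 0 ≤ ((‖s‖⁻¹) ^ N) ^ 2 * (2 * N * K0) := by positivity
    linarith
  rw [← hA]
  have hd : ∀ r ≤ n, ∀ i < k r, D r i = true → ‖Z r i‖ ≤ A ^ r * M := by
    refine C.down_le hA1 hM ?_ hbirth
    intro r hr B hB hY i hi hdi
    obtain ⟨y', hy'⟩ : ∃ y' : ℕ → ℂ, y' = fun m => if D (r + 1) m = true then Y (r + 1) m else 0 := ⟨_, rfl⟩
    have hw : ∀ a ∈ w r, D (r + 1) a = true ∧ D (r + 1) (a + 1) = true := fun a ha => (C.letters r hr a ha).2
    have hw2 : ∀ a ∈ w r, a + 1 < k (r + 1) := fun a ha => (C.letters r hr a ha).1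
    have e : Z (r + 1) i = mrun s (w r) y' i := by
      rw [C.run r hr]
      refine mrun_congr hw ?_ hdi
      intro m hm
      rw [hy']
      simp [hm]
    rw [e]
    have h1 := norm_mrun_le hs hs1 (by linarith : (0 : ℝ) ≤ K0) H (hk (r + 1) (by omega)) hw hw2 hB
      (y := y') (fun m hm => by
        rw [hy']
        dsimp only
        split_ifs with h
        · exact hY m hm h
        · rw [norm_zero]
          exact hB) hi
    refine h1.trans ?_
    rw [hA]
    nlinarith
  have hd' : ∀ r ≤ n, ∀ i < k r, D r i = true → ‖Z r i‖ ≤ A ^ N * M := by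
    intro r hr i hi h
    refine (hd r hr i hi h).trans ?_
    exact mul_le_mul_of_nonneg_right (pow_le_pow_right₀ hA1 (by omega)) hM
  intro r hr i hi
  cases h : D r i with
  | true => exact hd' r hr i hi h
  | false => exact C.up_le hd' (n - r) r (by omega) i hi h

end

end Pool.Agent.Helper77.EV2
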