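import Pool.Agent.Helper77.EV2.Bound

/-!
# Insertion of two neighbouring strands of opposite directions, in gap coordinates
-/

set_option autoImplicit false

namespace Pool.Agent.Helper77.EV2

open Pool.Agent.Helper78.EV2 Pool.Agent.Helper78.EV

/-- the slice `D, Y` is the slice `D', Y'` (with `k` strands) with two new strands `j`, `j + 1` of
opposite directions -/
structure Ins (j k : ℕ) (D : ℕ → Bool) (Y : ℕ → ℂ) (D' : ℕ → Bool) (Y' : ℕ → ℂ) : Prop where
  le : j ≤ k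
  dl : ∀ i < j, D i = D' i
  dr : ∀ i, j ≤ i → i < k → D (i + 2) = D' i
  opp : D (j + 1) = !D j
  yl : ∀ i < j, Y i = Y' i
  yr : ∀ i, j ≤ i → i < k → Y (i + 2) = Y' i

variable {j k : ℕ} {D D' : ℕ → Bool} {Y Y' : ℕ → ℂ}

theorem Ins.ht_le (h : Ins j k D Y D' Y') {i : ℕ} (hi : i ≤ j) : ht D i = ht D' i := by
  unfold ht
  refine Finset.sum_congr rfl fun m hm => ?_
  rw [Finset.mem_range] at hm
  rw [h.dl m (by omega)]

theorem sg_not (b : Bool) : sg (!b) = -sg b := by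
  cases b <;> simp

theorem Ins.ht_ge (h : Ins j k D Y D' Y') {i : ℕ} (hi : j ≤ i) (hi2 : i ≤ k) : ht D (i + 2) = ht D' i := by
  obtain ⟨m, rfl⟩ : ∃ m, i = j + m := ⟨i - j, by omega⟩
  clear hi
  induction m with
  | zero =>
    rw [Nat.add_zero, show j + 2 = (j + 1) + 1 from rfl, ht_succ, ht_succ, h.ht_le le_rfl, h.opp, sg_not]
    ring_nf
  | succ m ih =>
    rw [show j + (m + 1) + 2 = (j + m + 2) + 1 by omega, ht_succ, ih (by omega), h.dr (j + m) (by omega) (by omega),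
      ← Nat.add_assoc, ht_succ]

theorem Ins.pot_le (h : Ins j k D Y D' Y') {i : ℕ} (hi : i ≤ j) : pot D Y i = pot D' Y' i := by
  unfold pot
  refine Finset.sum_congr rfl fun m hm => ?_
  rw [Finset.mem_range] at hm
  rw [h.dl m (by omega), h.yl m (by omega)]

theorem Ins.pot_ge (h : Ins j k D Y D' Y') {i : ℕ} (hi : j ≤ i) (hi2 : i ≤ k) :
    pot D Y (i + 2) = pot D' Y' i + sg (D j) * (Y j - Y (j + 1)) := by
  obtain ⟨m, rfl⟩ : ∃ m, i = j + m := ⟨i - j, by omega⟩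
  clear hi
  induction m with
  | zero =>
    rw [Nat.add_zero, show j + 2 = (j + 1) + 1 from rfl, pot_succ, pot_succ, h.pot_le le_rfl, h.opp, sg_not]
    push_cast
    ring_nf
  | succ m ih =>
    rw [show j + (m + 1) + 2 = (j + m + 2) + 1 by omega, pot_succ, ih (by omega),
      h.dr (j + m) (by omega) (by omega), h.yr (j + m) (by omega) (by omega), ← Nat.add_assoc, pot_succ]
    ring

theorem Ins.gap_le (h : Ins j k D Y D' Y') (s : ℂ) {i : ℕ} (hi : i ≤ j) : gap 1 s D Y i = gap 1 s D' Y' i := by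
  unfold gap
  rw [h.ht_le hi, h.pot_le hi]

theorem Ins.gap_ge (h : Ins j k D Y D' Y') {s : ℂ} (hs : s ≠ 0) (hs1 : ‖s‖ ≤ 1) {N : ℕ} (hk : k ≤ N)
    {i : ℕ} (hi : j ≤ i) (hi2 : i ≤ k) :
    ‖gap 1 s D Y (i + 2) - gap 1 s D' Y' i‖ ≤ (‖s‖⁻¹) ^ N * ‖Y j - Y (j + 1)‖ := by
  unfold gap
  rw [h.ht_ge hi hi2, h.pot_ge hi hi2, ← mul_sub, add_sub_cancel_left, norm_mul, norm_mul, norm_sg, one_mul, one_mul]
  refine mul_le_mul_of_nonneg_right ?_ (norm_nonneg _)
  apply norm_zpow_le hs hs1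
  exact (abs_ht_le D' i).trans (by exact_mod_cast hi2.trans hk)

end Pool.Agent.Helper77.EV2
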