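import Pool.Agent.Helper77.EV2.Chain
import Pool.Agent.Helper78.EV2.NetMain

/-!
# Lower bound: the masses of a connected chain are controlled by the defects at the maxima
-/

set_option autoImplicit false

namespace Pool.Agent.Helper77.EV2

open Pool.Agent.Helper78.EV2 Pool.Agent.Helper78.EV

/-- a set of strands which is closed under all connections -/
structure Cl (n : ℕ) (x : ℕ → Xt) (w : ℕ → List ℕ) (k : ℕ → ℕ) (S : ℕ → ℕ → Prop) : Prop where
  word : ∀ r < n, ∀ a ∈ w r, (S (r + 1) a ↔ S (r + 1) (a + 1))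
  mxl : ∀ r < n, ∀ j, x r = .mx j → ∀ i < j, (S r i ↔ S (r + 1) i)
  mxr : ∀ r < n, ∀ j, x r = .mx j → ∀ i, j ≤ i → i < k r → (S r i ↔ S (r + 1) (i + 2))
  mxc : ∀ r < n, ∀ j, x r = .mx j → (S (r + 1) j ↔ S (r + 1) (j + 1))
  mnl : ∀ r < n, ∀ j, x r = .mn j → ∀ i < j, (S r i ↔ S (r + 1) i)
  mnr : ∀ r < n, ∀ j, x r = .mn j → ∀ i, j ≤ i → i < k (r + 1) → (S r (i + 2) ↔ S (r + 1) i)
  mnc : ∀ r < n, ∀ j, x r = .mn j → (S r j ↔ S r (j + 1))

/-- the diagram is connected -/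
def Conn (n : ℕ) (x : ℕ → Xt) (w : ℕ → List ℕ) (k : ℕ → ℕ) : Prop :=
  ∀ S : ℕ → ℕ → Prop, Cl n x w k S → S 1 0 → ∀ r ≤ n, ∀ i < k r, S r i

/-- the macro events -/
def mev (x : ℕ → Xt) (w : ℕ → List ℕ) (m : ℕ) : MEv :=
  if m % 2 = 0 then (match x (m / 2) with
    | .mx j => .mx j
    | .mn j => .mn j) else .dn (w (m / 2))

theorem mev_even (x : ℕ → Xt) (w : ℕ → List ℕ) (r : ℕ) : mev x w (2 * r) = match x r with
    | .mx j => .mx j
    | .mn j => .mn j := by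
  unfold mev
  rw [if_pos (by omega), show 2 * r / 2 = r by omega]

theorem mev_odd (x : ℕ → Xt) (w : ℕ → List ℕ) (r : ℕ) : mev x w (2 * r + 1) = .dn (w r) := by
  unfold mev
  rw [if_neg (by omega), show (2 * r + 1) / 2 = r by omega]

/-- the gap coordinates of the macro slices -/
noncomputable def mc (s : ℂ) (D : ℕ → ℕ → Bool) (Y Z : ℕ → ℕ → ℂ) (m : ℕ) : ℕ → ℂ :=
  if m % 2 = 0 then gap 1 s (D (m / 2)) (Z (m / 2)) else gap 1 s (D (m / 2 + 1)) (Y (m / 2 + 1))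

theorem mc_even (s : ℂ) (D : ℕ → ℕ → Bool) (Y Z : ℕ → ℕ → ℂ) (r : ℕ) :
    mc s D Y Z (2 * r) = gap 1 s (D r) (Z r) := by
  unfold mc
  rw [if_pos (by omega), show 2 * r / 2 = r by omega]

theorem mc_odd (s : ℂ) (D : ℕ → ℕ → Bool) (Y Z : ℕ → ℕ → ℂ) (r : ℕ) :
    mc s D Y Z (2 * r + 1) = gap 1 s (D (r + 1)) (Y (r + 1)) := by
  unfold mc
  rw [if_neg (by omega), show (2 * r + 1) / 2 = r by omega]

/-- the sign of a strand as a real number -/
noncomputable def sgr (b : Bool) : ℝ := ((sg b : ℤ) : ℝ)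

theorem sgr_true : sgr true = 1 := by simp [sgr]
theorem sgr_false : sgr false = -1 := by simp [sgr]

theorem sgr_not (b : Bool) : sgr b + sgr (!b) = 0 := by
  cases b <;> simp [sgr]

section

variable {s : ℂ} {n : ℕ} {x : ℕ → Xt} {w : ℕ → List ℕ} {k : ℕ → ℕ} {D : ℕ → ℕ → Bool} {Y Z : ℕ → ℕ → ℂ}

theorem turn_of_ins {N : ℕ} {F0 : ℝ} (hs : s ≠ 0) (hs1 : ‖s‖ ≤ 1) (hF0 : 0 ≤ F0) {j k k' : ℕ} {D D' : ℕ → Bool}
    {Y Y' : ℕ → ℂ} (hk : k' = k + 2) (hkN : k ≤ N) (h : Ins j k D' Y' D Y) (hF : ‖Y' j - Y' (j + 1)‖ ≤ F0) :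
    Turn ((‖s‖⁻¹) ^ N * F0) j k k' (fun i => sgr (D i)) (fun i => sgr (D' i)) (gap 1 s D Y) (gap 1 s D' Y') where
  hk := hk
  hj := h.le
  s0 := by
    rw [h.opp]
    exact sgr_not _
  sl i hi := by rw [h.dl i hi]
  sr i hi hi2 := by rw [h.dr i hi hi2]
  cl i hi := by
    rw [h.gap_le s hi, sub_self, norm_zero]
    positivity
  cr i hi hi2 := by
    refine (h.gap_ge hs hs1 hkN hi hi2).trans ?_
    exact mul_le_mul_of_nonneg_left hF (by positivity)

theorem Chain.nt (C : Chain s n x w k D Y Z) (hs : s ≠ 0) (hs1 : ‖s‖ ≤ 1) {N : ℕ} (hk : ∀ r ≤ n, k r ≤ N)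
    (hn : 2 * n ≤ N) {F0 : ℝ} (hF0 : 0 ≤ F0)
    (hF : ∀ r < n, ∀ j, x r = .mx j → ‖Y (r + 1) j - Y (r + 1) (j + 1)‖ ≤ F0) :
    Nt N s ((‖s‖⁻¹) ^ N * F0) (2 * n) (fun m => k ((m + 1) / 2)) (fun m i => sgr (D ((m + 1) / 2) i))
      (mc s D Y Z) (mev x w) where
  hR := hn
  hk m hm := hk _ (by omega)
  k0 := by
    show k ((0 + 1) / 2) = 0
    exact C.k0
  kR := by
    show k ((2 * n + 1) / 2) = 0
    rw [show (2 * n + 1) / 2 = n by omega]
    exact C.kn
  hσ m hm i hi := by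
    show sgr (D ((m + 1) / 2) i) = 1 ∨ sgr (D ((m + 1) / 2) i) = -1
    cases D ((m + 1) / 2) i
    · right
      exact sgr_false
    · left
      exact sgr_true
  ok m hm := by
    rcases Nat.mod_two_eq_zero_or_one m with h | h
    · obtain ⟨r, rfl⟩ : ∃ r, m = 2 * r := ⟨m / 2, by omega⟩
      have hr : r < n := by omega
      rw [mev_even, mc_even, mc_odd]
      simp only [show (2 * r + 1) / 2 = r by omega, show (2 * r + 1 + 1) / 2 = r + 1 by omega]
      cases hx : x r with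
      | mx j =>
        obtain ⟨h1, h2⟩ := C.mx r hr j hx
        exact turn_of_ins hs hs1 hF0 h1 (hk r hr.le) h2 (hF r hr j hx)
      | mn j =>
        obtain ⟨h1, h2, h3⟩ := C.mn r hr j hx
        refine turn_of_ins hs hs1 hF0 h1 (hk (r + 1) hr) h2 ?_
        rw [h3, sub_self, norm_zero]
        exact hF0
    · obtain ⟨r, rfl⟩ : ∃ r, m = 2 * r + 1 := ⟨m / 2, by omega⟩
      have hr : r < n := by omega
      have e : 2 * r + 1 + 1 = 2 * (r + 1) := by ring
      rw [mev_odd, mc_odd, e, mc_even]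
      simp only [show (2 * (r + 1)) / 2 = r + 1 by omega, show (2 * (r + 1) + 1) / 2 = r + 1 by omega]
      refine ⟨rfl, fun i _ => rfl, ?_, ?_⟩
      · intro a ha
        obtain ⟨h1, h2, h3⟩ := C.letters r hr a ha
        refine ⟨h1, ?_, ?_⟩
        · show sgr (D (r + 1) a) = 1
          rw [h2]
          exact sgr_true
        · show sgr (D (r + 1) (a + 1)) = 1
          rw [h3]
          exact sgr_true
      · intro i _
        rw [C.run r hr, gap_mrun hs (fun a ha => (C.letters r hr a ha).2), sub_self, norm_zero]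
        positivity

theorem Chain.links (C : Chain s n x w k D Y Z) (h : Conn n x w k) (S : ℕ × ℕ → Prop) (h0 : S (1, 0)) (hn : 0 < n)
    (hk1 : 0 < k 1)
    (hS : ∀ a b, Lk (2 * n) (fun m => k ((m + 1) / 2)) (mev x w) a b → (S a ↔ S b)) :
    ∀ m ≤ 2 * n, ∀ i < k ((m + 1) / 2), S (m, i) := by
  have hdn : ∀ r < n, ∀ i < k (r + 1), (S (2 * r + 1, i) ↔ S (2 * (r + 1), i)) := by
    intro r hr i hi
    exact hS _ _ (Lk.dn (k := fun m => k ((m + 1) / 2)) (r := 2 * r + 1) (i := i) (by omega) (mev_odd x w r)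
      (by show i < k ((2 * r + 1 + 1) / 2); rw [show (2 * r + 1 + 1) / 2 = r + 1 by omega]; exact hi))
  have ex : ∀ r j, x r = .mx j → mev x w (2 * r) = .mx j := fun r j hx => by rw [mev_even, hx]
  have en : ∀ r j, x r = .mn j → mev x w (2 * r) = .mn j := fun r j hx => by rw [mev_even, hx]
  have hcl : Cl n x w k fun r i => S (2 * r, i) := by
    constructor
    · intro r hr a ha
      have h1 := (C.letters r hr a ha).1
      have h2 := hS _ _ (Lk.dnl (k := fun m => k ((m + 1) / 2)) (r := 2 * r + 1) (by omega) (mev_odd x w r) ha)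
      exact (hdn r hr a (by omega)).symm.trans (h2.trans (hdn r hr (a + 1) h1))
    · intro r hr j hx i hi
      obtain ⟨h1, h2⟩ := C.mx r hr j hx
      have hle := h2.le
      have h3 := hS _ _ (Lk.mxl (k := fun m => k ((m + 1) / 2)) (r := 2 * r) (by omega) (ex r j hx) hi)
      exact h3.trans (hdn r hr i (by omega))
    · intro r hr j hx i hi hi2
      obtain ⟨h1, h2⟩ := C.mx r hr j hx
      have h3 := hS _ _ (Lk.mxr (k := fun m => k ((m + 1) / 2)) (r := 2 * r) (by omega) (ex r j hx) hi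
        (by show i < k ((2 * r + 1) / 2); rw [show (2 * r + 1) / 2 = r by omega]; exact hi2))
      exact h3.trans (hdn r hr (i + 2) (by omega))
    · intro r hr j hx
      obtain ⟨h1, h2⟩ := C.mx r hr j hx
      have hle := h2.le
      have h3 := hS _ _ (Lk.mxc (k := fun m => k ((m + 1) / 2)) (r := 2 * r) (by omega) (ex r j hx))
      exact (hdn r hr j (by omega)).symm.trans (h3.trans (hdn r hr (j + 1) (by omega)))
    · intro r hr j hx i hi
      obtain ⟨h1, h2, _⟩ := C.mn r hr j hx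
      have hle := h2.le
      have h3 := hS _ _ (Lk.mnl (k := fun m => k ((m + 1) / 2)) (r := 2 * r) (by omega) (en r j hx) hi)
      exact h3.trans (hdn r hr i (by omega))
    · intro r hr j hx i hi hi2
      have h3 := hS _ _ (Lk.mnr (k := fun m => k ((m + 1) / 2)) (r := 2 * r) (by omega) (en r j hx) hi
        (by show i < k ((2 * r + 1 + 1) / 2); rw [show (2 * r + 1 + 1) / 2 = r + 1 by omega]; exact hi2))
      exact h3.trans (hdn r hr i hi2)
    · intro r hr j hx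
      exact hS _ _ (Lk.mnc (k := fun m => k ((m + 1) / 2)) (r := 2 * r) (by omega) (en r j hx))
  have hall := h _ hcl ((hdn 0 hn 0 hk1).1 h0)
  intro m hm i hi
  rcases Nat.mod_two_eq_zero_or_one m with h | h
  · obtain ⟨r, rfl⟩ : ∃ r, m = 2 * r := ⟨m / 2, by omega⟩
    rw [show (2 * r + 1) / 2 = r by omega] at hi
    exact hall r (by omega) i hi
  · obtain ⟨r, rfl⟩ : ∃ r, m = 2 * r + 1 := ⟨m / 2, by omega⟩
    rw [show (2 * r + 1 + 1) / 2 = r + 1 by omega] at hi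
    exact (hdn r (by omega) i hi).2 (hall (r + 1) (by omega) i hi)

end

/-- **Lower bound** for connected chains. -/
theorem chain_lower (N : ℕ) (hN : 1 ≤ N) {Phi : ℝ} (hPhi : 0 < Phi) : ∃ th > 0, ∃ K > 0, ∀ x0 y0 : ℝ, 0 < x0 → x0 ≤ Phi →
    |y0| ≤ th → ∀ (n : ℕ) (x : ℕ → Xt) (w : ℕ → List ℕ) (k : ℕ → ℕ) (D : ℕ → ℕ → Bool) (Y Z : ℕ → ℕ → ℂ),
      Chain (ss x0 y0) n x w k D Y Z → 0 < n → 2 * n ≤ N → (∀ r ≤ n, k r ≤ N) → 0 < k 1 → Conn n x w k →
      ∀ F : ℝ, ‖Y 1 0‖ ≤ F →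
      (∀ r < n, ∀ j, x r = .mx j → ‖Y (r + 1) j - Y (r + 1) (j + 1)‖ ≤ F) →
      ∀ r < n, ∀ i < k (r + 1), ‖Y (r + 1) i‖ ≤ K / x0 * F := by
  obtain ⟨th, hth, K, hK, H⟩ := net N Phi hPhi
  refine ⟨th, hth, Real.exp Phi ^ N * (2 * (K * Real.exp Phi ^ N)), by positivity, ?_⟩
  intro x0 y0 hx hxP hy n x w k D Y Z C hn hnN hk hk1 hconn F hF1 hF r hr i hi
  have hF0 : 0 ≤ F := (norm_nonneg _).trans hF1
  have hs := ss_ne_zero x0 y0
  have hsn := norm_ss x0 y0
  have hs1 : ‖ss x0 y0‖ ≤ 1 := by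
    rw [hsn]
    exact Real.exp_le_one_iff.2 (by linarith)
  have hsi : ‖ss x0 y0‖⁻¹ = Real.exp x0 := by rw [hsn, ← Real.exp_neg, neg_neg]
  have hE : Real.exp x0 ≤ Real.exp Phi := Real.exp_le_exp.2 hxP
  have hE1 : 1 ≤ Real.exp x0 := Real.one_le_exp hx.le
  have hEN : Real.exp x0 ^ N ≤ Real.exp Phi ^ N := pow_le_pow_left₀ (by positivity) hE N
  have hEN1 : Real.exp x0 ≤ Real.exp x0 ^ N := le_self_pow₀ hE1 (by omega)
  have h1 := C.nt hs hs1 hk hnN hF0 hF
  have h2 := H x0 y0 hx hxP hy _ _ _ _ _ _ h1 (1, 0) (by show 1 ≤ 2 * n; omega)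
    (by show 0 < k ((1 + 1) / 2); exact hk1) (by
      constructor
      · show ‖mc (ss x0 y0) D Y Z 1 0‖ ≤ _
        rw [show (1 : ℕ) = 2 * 0 + 1 from rfl, mc_odd]
        unfold gap
        rw [pot_zero, mul_zero, norm_zero]
        positivity
      · show ‖mc (ss x0 y0) D Y Z 1 (0 + 1)‖ ≤ _
        rw [show mc (ss x0 y0) D Y Z 1 = mc (ss x0 y0) D Y Z (2 * 0 + 1) from rfl, mc_odd]
        have h3 := norm_gap_le hs hs1 (d := D (0 + 1)) (y := Y (0 + 1)) (k := 1) (N := 1) le_rfl hF0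
          (fun i hi => by
            have : i = 0 := by omega
            subst this
            exact hF1) (i := 0 + 1) le_rfl
        refine h3.trans ?_
        rw [hsi]
        rw [pow_one, Nat.cast_one, one_mul]
        exact mul_le_mul_of_nonneg_right hEN1 hF0)
    (by
      intro S hS0 hS r hr i hi
      exact C.links hconn S hS0 hn hk1 hS r hr i hi)
  have h3 : ∀ i ≤ k (r + 1), ‖gap 1 (ss x0 y0) (D (r + 1)) (Y (r + 1)) i‖ ≤ K / x0 * (Real.exp x0 ^ N * F) := by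
    intro i hi'
    have h4 := h2 (2 * r + 1) (by omega)
    simp only [show (2 * r + 1 + 1) / 2 = r + 1 by omega, mc_odd, hsi] at h4
    rcases Nat.lt_or_ge i (k (r + 1)) with h5 | h5
    · exact (h4 i h5).1
    · have h6 : i = (k (r + 1) - 1) + 1 := by omega
      rw [h6]
      exact (h4 (k (r + 1) - 1) (by omega)).2
  have h4 := norm_mass_le hs hs1 (hk (r + 1) (by omega)) h3 hi
  rw [hsi] at h4
  refine h4.trans ?_
  have hKx : 0 ≤ K / x0 := by positivity
  calc Real.exp x0 ^ N * (2 * (K / x0 * (Real.exp x0 ^ N * F))) ≤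
      Real.exp Phi ^ N * (2 * (K / x0 * (Real.exp Phi ^ N * F))) := by
        have a1 : Real.exp x0 ^ N * F ≤ Real.exp Phi ^ N * F := mul_le_mul_of_nonneg_right hEN hF0
        have a2 : K / x0 * (Real.exp x0 ^ N * F) ≤ K / x0 * (Real.exp Phi ^ N * F) :=
          mul_le_mul_of_nonneg_left a1 hKx
        exact mul_le_mul hEN (by linarith) (by positivity) (by positivity)
    _ = _ := by
        field_simp

end Pool.Agent.Helper77.EV2
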