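import Pool.Agent.Helper77.EV2.RowsC
import Pool.Agent.Helper78.EV2.ConnRows
import Pool.Agent.Helper57.EV2.Last
import Pool.Agent.Helper59.EV2.QSum

/-!
# EV2: the leaves R10 and R11 from the label facts
-/

set_option autoImplicit false

namespace Pool.Agent.Helper77.EV2

open Polynomial
open Pool.Agent.Helper27.EV2 (Word Row Ext row lv maxima crossings flow fext nb lab Q Qm ps GG GP)
open Pool.Agent.Helper78.EV (ss ss_ne_zero norm_ss)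

theorem ss_eq (x y : ℝ) : Helper27.EV2.ss x y = ss x y := rfl

section

variable (lb : ∀ W : Word, Helper27.EV2.Ok W → ∀ t ti : ℂ, Lb W t ti)

include lb

/-- D7 -/
theorem lower_of (b : ℕ) (Φ : ℝ) (hΦ : 0 < Φ) : ∃ th > 0, ∃ ka > 0, ∀ W : Word, Helper27.EV2.Ok W → W ≠ [] →
    Helper27.EV2.Conn W → maxima W ≤ b → ∀ x y : ℝ, 0 < x → x ≤ Φ → |y| ≤ th →
      ka * x ^ b ≤ ‖GG W (Helper27.EV2.ss x y ^ 2)‖ := by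
  obtain ⟨th, hth, ka, hka, H⟩ := GG_lower b hΦ
  refine ⟨th, hth, ka, hka, fun W hW hne hc hb x y hx hxP hy => ?_⟩
  rw [ss_eq]
  exact H W hW hne (Helper78.EV2.conn_rows hW hne hc) hb x y hx hxP hy (lb W hW _ _)

/-- D8 -/
theorem upper_of (b : ℕ) (Φ : ℝ) (hΦ : 0 < Φ) : ∃ th > 0, ∃ K > 0, ∀ W : Word, Helper27.EV2.Ok W → maxima W ≤ b →
    ∀ x y : ℝ, 0 < x → x ≤ Φ → |y| ≤ th → ‖GG W (Helper27.EV2.ss x y ^ 2)‖ ≤ K := by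
  obtain ⟨th, hth, K0, hK0, H⟩ := runBd_est (2 * b) hΦ.le
  obtain ⟨N, hN⟩ : ∃ N, N = 2 * b := ⟨_, rfl⟩
  refine ⟨th, hth, (((Real.exp Φ ^ N) ^ 2 * (2 * N * K0) + 1) ^ N + 1) ^ N, by positivity,
    fun W hW hb x y hx hxP hy => ?_⟩
  rw [ss_eq]
  have hs1 : ‖ss x y‖ ≤ 1 := by
    rw [norm_ss]
    exact Real.exp_le_one_iff.2 (by linarith)
  have hsi : ‖ss x y‖⁻¹ = Real.exp x := by rw [norm_ss, ← Real.exp_neg, neg_neg]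
  have h1 := GG_upper hW (lb W hW _ _) (ss_ne_zero x y) hs1 hK0 (H x y hx hxP hy)
    (Nat.mul_le_mul_left 2 hb)
  refine h1.trans ?_
  rw [hsi, ← hN]
  have h2 : Real.exp x ≤ Real.exp Φ := Real.exp_le_exp.2 hxP
  gcongr

/-- E1 -/
theorem upper_small_of (b : ℕ) : ∃ K > 0, ∀ W : Word, Helper27.EV2.Ok W → maxima W ≤ b → ∀ s : ℂ, ‖s‖ = 2 / 5 →
    ‖GG W (s ^ 2)‖ ≤ K := by
  obtain ⟨N, hN⟩ : ∃ N, N = 2 * b := ⟨_, rfl⟩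
  refine ⟨(((((2 / 5 : ℝ)⁻¹) ^ N) ^ 2 * (2 * N * 1) + 1) ^ N + 1) ^ N, by positivity, fun W hW hb s hs => ?_⟩
  have hs0 : s ≠ 0 := by
    rintro rfl
    rw [norm_zero] at hs
    norm_num at hs
  have h1 := GG_upper hW (lb W hW _ _) hs0 (by rw [hs]; norm_num) le_rfl
    (runBd_small (by rw [hs]; norm_num) N) (by rw [hN]; exact Nat.mul_le_mul_left 2 hb)
  rwa [hs] at h1

/-- R10 -/
theorem h1_of (b : ℕ) (Φ : ℝ) (hΦ : 0 < Φ) : ∃ th : ℝ, 0 < th ∧ ∃ a : ℕ, ∃ c : ℝ, 0 < c ∧ ∃ K : ℝ,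
    ∀ W : Word, Helper27.EV2.Ok W → W ≠ [] → Helper27.EV2.Conn W → maxima W ≤ b → ∀ x y : ℝ, 0 < x → x ≤ Φ → |y| ≤ th →
      c * x ^ a ≤ ‖aeval (Complex.exp (-(2 * (x + y * Complex.I)))) (GP W)‖ ∧
      ‖aeval (Complex.exp (-(2 * (x + y * Complex.I)))) (GP W)‖ ≤ K :=
  Helper57.EV2.h1_of b (fun Φ hΦ => lower_of lb b Φ hΦ) (fun Φ hΦ => upper_of lb b Φ hΦ) Φ hΦ

/-- R11 -/
theorem h4_of (b : ℕ) : ∃ t₀ : ℝ, 0 < t₀ ∧ ∃ K : ℝ, ∀ W : Word, Helper27.EV2.Ok W → W ≠ [] → maxima W ≤ b →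
    ∀ t : ℂ, ‖t‖ ≤ t₀ → ‖aeval t (GP W)‖ ≤ K :=
  Helper57.EV2.disc b (upper_small_of lb b)

end

end Pool.Agent.Helper77.EV2
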