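import Mathlib

/-!
# Partial sums of a list in which two neighbours are inserted or deleted
-/

set_option autoImplicit false

namespace Pool.Agent.Helper77.EV2

variable {M : Type*} [AddCommMonoid M]

/-- the sum of the first `i` entries -/
def ps (L : List M) (i : ℕ) : M := (L.take i).sum

@[simp] theorem ps_zero (L : List M) : ps L 0 = 0 := by simp [ps]

theorem ps_length (L : List M) {i : ℕ} (h : L.length ≤ i) : ps L i = L.sum := by
  unfold ps
  rw [List.take_of_length_le h]

theorem ps_append_le (P S : List M) {i : ℕ} (h : i ≤ P.length) : ps (P ++ S) i = ps P i := by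
  unfold ps
  rw [List.take_append_of_le_length h]

theorem ps_append_add (P S : List M) (i : ℕ) : ps (P ++ S) (P.length + i) = P.sum + ps S i := by
  unfold ps
  rw [List.take_length_add_append, List.sum_append]

/-- two inserted entries, to the left -/
theorem ps_pair_le (P S : List M) (a b : M) {i : ℕ} (h : i ≤ P.length) :
    ps (P ++ a :: b :: S) i = ps (P ++ S) i := by
  rw [ps_append_le _ _ h, ps_append_le _ _ h]

/-- two inserted entries, between them -/
theorem ps_pair_mid (P S : List M) (a b : M) :
    ps (P ++ a :: b :: S) (P.length + 1) = ps (P ++ S) P.length + a := by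
  rw [ps_append_add, show P.length = P.length + 0 from rfl, ps_append_add]
  simp [ps]

/-- two inserted entries, to the right -/
theorem ps_pair_ge (P S : List M) (a b : M) {i : ℕ} (h : P.length ≤ i) :
    ps (P ++ a :: b :: S) (i + 2) = ps (P ++ S) i + (a + b) := by
  obtain ⟨m, rfl⟩ : ∃ m, i = P.length + m := ⟨i - P.length, by omega⟩
  rw [show P.length + m + 2 = P.length + (m + 2) by omega, ps_append_add, ps_append_add]
  unfold ps
  rw [show m + 2 = (m + 1) + 1 from rfl, List.take_succ_cons, List.take_succ_cons, List.sum_cons, List.sum_cons]
  abel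

/-- the whole list from two neighbours -/
theorem split_pair {α : Type*} (L : List α) {k : ℕ} (h : k + 2 ≤ L.length) :
    L = L.take k ++ L[k] :: L[k + 1] :: L.drop (k + 2) := by
  conv_lhs => rw [← List.take_append_drop k L]
  rw [List.drop_eq_getElem_cons (by omega), List.drop_eq_getElem_cons (by omega)]

end Pool.Agent.Helper77.EV2
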