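import Pool.Agent.Helper78.EV2.Run

/-!
# Masses on the strands and gap coordinates

`d i`: the strand `i` of the slice goes down. `y i`: the mass on the strand `i`. The gap coordinates
are the signed partial sums of the masses, times a power of `s`. A positive crossing acts on the gap
coordinates by `fstep`.
-/

set_option autoImplicit false

namespace Pool.Agent.Helper77.EV2

open Pool.Agent.Helper78.EV2

/-- the sign of a direction -/
def sg (b : Bool) : ℤ := if b then 1 else -1

@[simp] theorem sg_true : sg true = 1 := rfl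
@[simp] theorem sg_false : sg false = -1 := rfl

/-- the index of a gap -/
def ht (d : ℕ → Bool) (i : ℕ) : ℤ := ∑ j ∈ Finset.range i, sg (d j)

theorem ht_succ (d : ℕ → Bool) (i : ℕ) : ht d (i + 1) = ht d i + sg (d i) := by
  unfold ht
  rw [Finset.sum_range_succ]

/-- the signed partial sums of the masses -/
noncomputable def pot (d : ℕ → Bool) (y : ℕ → ℂ) (i : ℕ) : ℂ := ∑ j ∈ Finset.range i, (sg (d j) : ℂ) * y j

theorem pot_succ (d : ℕ → Bool) (y : ℕ → ℂ) (i : ℕ) : pot d y (i + 1) = pot d y i + sg (d i) * y i := by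
  unfold pot
  rw [Finset.sum_range_succ]

@[simp] theorem pot_zero (d : ℕ → Bool) (y : ℕ → ℂ) : pot d y 0 = 0 := by
  unfold pot
  simp

/-- the gap coordinates -/
noncomputable def gap (e : ℤ) (s : ℂ) (d : ℕ → Bool) (y : ℕ → ℂ) (i : ℕ) : ℂ := s ^ (e * ht d i) * pot d y i

/-- one crossing of the strands `a`, `a + 1`; `y`: the masses before, `y'`: the masses after the crossing (seen in the
direction of the strands); `L`: the over strand goes from `a + 1` to `a` -/
structure Cr (L : Bool) (s : ℂ) (a : ℕ) (y y' : ℕ → ℂ) : Prop where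
  ne : ∀ i, i ≠ a → i ≠ a + 1 → y' i = y i
  ovl : L = true → y' a = s ^ 2 * y (a + 1) ∧ y' (a + 1) = y a + (1 - s ^ 2) * y (a + 1)
  ovr : L = false → y' (a + 1) = s ^ 2 * y a ∧ y' a = y (a + 1) + (1 - s ^ 2) * y a

theorem Cr.sum {L : Bool} {s : ℂ} {a : ℕ} {y y' : ℕ → ℂ} (h : Cr L s a y y') :
    y' a + y' (a + 1) = y a + y (a + 1) := by
  cases hL : L with
  | true =>
    obtain ⟨h1, h2⟩ := h.ovl hL
    rw [h1, h2]
    ring
  | false =>
    obtain ⟨h1, h2⟩ := h.ovr hL
    rw [h1, h2]
    ring

theorem Cr.pot_ne {L : Bool} {s : ℂ} {a : ℕ} {y y' : ℕ → ℂ} (h : Cr L s a y y') {d : ℕ → Bool}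
    (hd : d (a + 1) = d a) {i : ℕ} (hi : i ≠ a + 1) : pot d y' i = pot d y i := by
  rcases Nat.lt_or_ge i (a + 1) with h1 | h1
  · unfold pot
    refine Finset.sum_congr rfl fun j hj => ?_
    rw [Finset.mem_range] at hj
    rw [h.ne j (by omega) (by omega)]
  · obtain ⟨m, rfl⟩ : ∃ m, i = a + 2 + m := ⟨i - (a + 2), by omega⟩
    clear hi h1
    induction m with
    | zero =>
      have e : pot d y' a = pot d y a := by
        unfold pot
        refine Finset.sum_congr rfl fun j hj => ?_
        rw [Finset.mem_range] at hj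
        rw [h.ne j (by omega) (by omega)]
      rw [Nat.add_zero, show a + 2 = (a + 1) + 1 from rfl, pot_succ, pot_succ, pot_succ, pot_succ, e, hd]
      linear_combination (sg (d a) : ℂ) * h.sum
    | succ m ih =>
      rw [← Nat.add_assoc, pot_succ, pot_succ, ih, h.ne _ (by omega) (by omega)]

/-- A positive crossing in gap coordinates. -/
theorem Cr.gap {L : Bool} {s : ℂ} (hs : s ≠ 0) {a : ℕ} {y y' : ℕ → ℂ} (h : Cr L s a y y') {d : ℕ → Bool}
    (hd : d (a + 1) = d a) {e : ℤ} (he : e * sg (d a) = sg L) : gap e s d y' = fstep s (gap e s d y) a := by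
  funext i
  unfold fstep
  by_cases hi : i = a + 1
  · subst hi
    rw [Function.update_self]
    unfold EV2.gap
    have e1 : ht d (a + 1) = ht d a + sg (d a) := ht_succ d a
    have e2 : ht d (a + 2) = ht d a + 2 * sg (d a) := by
      rw [show a + 2 = (a + 1) + 1 from rfl, ht_succ, e1, hd]
      ring
    have p1 : pot d y (a + 1) = pot d y a + sg (d a) * y a := pot_succ d y a
    have p2 : pot d y (a + 2) = pot d y a + sg (d a) * y a + sg (d a) * y (a + 1) := by
      rw [show a + 2 = (a + 1) + 1 from rfl, pot_succ, p1, hd]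
    have p3 : pot d y' (a + 1) = pot d y a + sg (d a) * y' a := by
      rw [pot_succ, h.pot_ne hd (by omega)]
    rw [p1, p2, p3, e1, e2]
    obtain ⟨P, hP⟩ : ∃ P, P = pot d y a := ⟨_, rfl⟩
    obtain ⟨S, hS⟩ : ∃ S, S = s ^ (e * ht d a) := ⟨_, rfl⟩
    rw [← hP]
    cases hL : L with
    | true =>
      obtain ⟨h1, h2⟩ := h.ovl hL
      rw [hL, sg_true] at he
      have f1 : s ^ (e * (ht d a + sg (d a))) = S * s := by
        rw [mul_add, he, zpow_add₀ hs, zpow_one, hS]
      have f2 : s ^ (e * (ht d a + 2 * sg (d a))) = S * s ^ 2 := by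
        rw [mul_add, show e * (2 * sg (d a)) = 2 * (e * sg (d a)) by ring, he, zpow_add₀ hs, hS]
        rfl
      rw [f1, f2, ← hS, h1]
      ring
    | false =>
      obtain ⟨h1, h2⟩ := h.ovr hL
      rw [hL, sg_false] at he
      have f1 : s ^ (e * (ht d a + sg (d a))) = S * s⁻¹ := by
        rw [mul_add, he, zpow_add₀ hs, zpow_neg_one, hS]
      have f2 : s ^ (e * (ht d a + 2 * sg (d a))) = S * (s⁻¹) ^ 2 := by
        rw [mul_add, show e * (2 * sg (d a)) = -2 by rw [show e * (2 * sg (d a)) = 2 * (e * sg (d a)) by ring, he]; norm_num,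
          zpow_add₀ hs, hS, zpow_neg, inv_pow]
        rfl
      rw [f1, f2, ← hS, h2]
      field_simp
      ring
  · rw [Function.update_of_ne hi]
    unfold EV2.gap
    rw [h.pot_ne hd hi]

theorem fstep_comm (s : ℂ) (c : ℕ → ℂ) {a b : ℕ} (h : a + 1 < b ∨ b + 1 < a) :
    fstep s (fstep s c a) b = fstep s (fstep s c b) a := by
  funext i
  unfold fstep
  by_cases ha : i = a + 1
  · subst ha
    rw [Function.update_of_ne (by omega : a + 1 ≠ b + 1), Function.update_self, Function.update_self,
      Function.update_of_ne (by omega : a + 1 ≠ b + 1), Function.update_of_ne (by omega : a ≠ b + 1),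
      Function.update_of_ne (by omega : a + 2 ≠ b + 1)]
  · by_cases hb : i = b + 1
    · subst hb
      rw [Function.update_self, Function.update_of_ne (by omega : b + 1 ≠ a + 1),
        Function.update_of_ne (by omega : b ≠ a + 1), Function.update_of_ne (by omega : b + 2 ≠ a + 1),
        Function.update_of_ne (by omega : b + 1 ≠ a + 1), Function.update_self]
    · rw [Function.update_of_ne hb, Function.update_of_ne ha, Function.update_of_ne ha, Function.update_of_ne hb]

theorem frun_fstep_comm (s : ℂ) (w : List ℕ) (c : ℕ → ℂ) {a : ℕ} (h : ∀ b ∈ w, a + 1 < b ∨ b + 1 < a) :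
    frun s w (fstep s c a) = fstep s (frun s w c) a := by
  induction w generalizing c with
  | nil => rfl
  | cons b w ih =>
    have e : ∀ c : ℕ → ℂ, frun s (b :: w) c = frun s w (fstep s c b) := fun c => rfl
    rw [e, e, fstep_comm s c (h b (by simp)), ih _ fun x hx => h x (List.mem_cons_of_mem _ hx)]

/-- A run of crossings on a slice with the directions `d`, in gap coordinates: from the upper slice `c` to the
lower slice `c'`; crossings of strands which go down act downwards, the others upwards. -/
inductive RunG (s : ℂ) (d : ℕ → Bool) : List ℕ → (ℕ → ℂ) → (ℕ → ℂ) → Prop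
  | nil (c : ℕ → ℂ) : RunG s d [] c c
  | down (a : ℕ) (w : List ℕ) (c c'' : ℕ → ℂ) : d a = true → RunG s d w (fstep s c a) c'' → RunG s d (a :: w) c c''
  | up (a : ℕ) (w : List ℕ) (c' c'' : ℕ → ℂ) : d a = false → RunG s d w c' c'' → RunG s d (a :: w) (fstep s c' a) c''

theorem frun_append (s : ℂ) (u w : List ℕ) (c : ℕ → ℂ) : frun s (u ++ w) c = frun s w (frun s u c) := by
  unfold frun
  rw [List.foldl_append]

/-- The crossings which go down first, then the others. -/
theorem RunG.split {s : ℂ} {d : ℕ → Bool} {w : List ℕ} {c c' : ℕ → ℂ} (h : RunG s d w c c')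
    (hd : ∀ a ∈ w, d (a + 1) = d a) :
    frun s (w.filter d) c = frun s (w.filter fun a => !d a).reverse c' := by
  induction h with
  | nil c => rfl
  | down a w c c'' ha _ ih =>
    have hd' : ∀ b ∈ w, d (b + 1) = d b := fun b hb => hd b (List.mem_cons_of_mem _ hb)
    rw [List.filter_cons_of_pos ha, List.filter_cons_of_neg (by simp [ha]), ← ih hd']
    rfl
  | up a w c' c'' ha _ ih =>
    have hd' : ∀ b ∈ w, d (b + 1) = d b := fun b hb => hd b (List.mem_cons_of_mem _ hb)
    rw [List.filter_cons_of_neg (by simp [ha]), List.filter_cons_of_pos (by simp [ha]), List.reverse_cons,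
      frun_append, ← ih hd']
    have e : ∀ c : ℕ → ℂ, frun s [a] c = fstep s c a := fun c => rfl
    rw [e, frun_fstep_comm]
    intro b hb
    rw [List.mem_filter] at hb
    have h1 := hd b (List.mem_cons_of_mem _ hb.1)
    have h2 := hd a (by simp)
    by_contra hcon
    rw [not_or] at hcon
    have h3 : b = a ∨ b = a + 1 ∨ a = b + 1 := by omega
    rcases h3 with h3 | h3 | h3
    · rw [h3, ha] at hb
      simp at hb
    · rw [h3, h2, ha] at hb
      simp at hb
    · rw [h3, h1, hb.2] at ha
      simp at ha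

end Pool.Agent.Helper77.EV2
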