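import Pool.Agent.Helper77.EV2.RowsA
import Pool.Agent.Helper48.EV2.Macro

/-!
# The bounds for the small determinant of a word of rows
-/

set_option autoImplicit false

namespace Pool.Agent.Helper77.EV2

open Pool.Agent.Helper27.EV2 (Word Row Ext row lv maxima crossings flow fext nb lab Q Qm ps GG)
open Pool.Agent.Helper85.Exp (St)
open Pool.Agent.Helper78.EV (ss ss_ne_zero norm_ss)

/-! ### Counting -/

theorem maxima_append (W W' : Word) : maxima (W ++ W') = maxima W + maxima W' := by
  unfold Helper27.EV2.maxima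
  rw [List.filter_append, List.length_append]

theorem nb_succ_mx {W : Word} {r k : ℕ} {d : Bool} (hr : r < W.length) (h : (row W r).e = .mx k d) :
    nb W (r + 1) = nb W r + 1 := by
  unfold Helper27.EV2.nb
  rw [List.take_succ_eq_append_getElem hr, maxima_append, ← row_eq hr]
  congr 1
  unfold Helper27.EV2.maxima
  rw [List.filter_cons_of_pos (by rw [h])]
  rfl

theorem nb_succ_mn {W : Word} {r k : ℕ} (hr : r < W.length) (h : (row W r).e = .mn k) :
    nb W (r + 1) = nb W r := by
  unfold Helper27.EV2.nb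
  rw [List.take_succ_eq_append_getElem hr, maxima_append, ← row_eq hr]
  have : maxima [row W r] = 0 := by
    unfold Helper27.EV2.maxima
    rw [List.filter_cons_of_neg (by rw [h]; simp)]
    rfl
  rw [this]
  rfl

theorem nb_zero (W : Word) : nb W 0 = 0 := by
  unfold Helper27.EV2.nb
  rw [List.take_zero]
  rfl

theorem nb_length (W : Word) : nb W W.length = maxima W := by
  unfold Helper27.EV2.nb
  rw [List.take_length]

theorem nb_le (W : Word) : ∀ r ≤ W.length, nb W r ≤ r := by
  intro r
  induction r with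
  | zero =>
    intro _
    rw [nb_zero]
  | succ r ih =>
    intro hr
    have := ih (by omega)
    cases h : (row W r).e with
    | mx k d =>
      rw [nb_succ_mx (by omega) h]
      omega
    | mn k =>
      rw [nb_succ_mn (by omega) h]
      omega

theorem nb_mono (W : Word) {r r' : ℕ} (h : r ≤ r') (hr' : r' ≤ W.length) : nb W r ≤ nb W r' := by
  obtain ⟨m, rfl⟩ := Nat.exists_eq_add_of_le h
  clear h
  induction m with
  | zero => exact le_rfl
  | succ m ih =>
    have h1 := ih (by omega)
    refine h1.trans ?_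
    rw [← Nat.add_assoc]
    cases h : (row W (r + m)).e with
    | mx k d =>
      rw [nb_succ_mx (by omega) h]
      omega
    | mn k => rw [nb_succ_mn (by omega) h]

theorem kk_eq {W : Word} (hW : Helper27.EV2.Ok W) : ∀ r ≤ W.length, kk W r + 2 * r = 4 * nb W r := by
  intro r
  induction r with
  | zero =>
    intro _
    unfold kk
    rw [lv_zero, nb_zero]
    rfl
  | succ r ih =>
    intro hr
    have h1 := ih (by omega)
    have hok := hW.ext r (by omega)
    cases h : (row W r).e with
    | mx k d =>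
      rw [h] at hok
      have hlv : lv W (r + 1) = (lv W r).take k ++ d :: (!d) :: (lv W r).drop k := by
        rw [lv_succ (by omega), h]
        rfl
      have h2 := (ins_dir (l := lv W r) (k := k) hok d).1
      rw [nb_succ_mx (by omega) h]
      unfold kk at h1 ⊢
      rw [hlv, h2]
      omega
    | mn k =>
      rw [h] at hok
      obtain ⟨d, hd1, hd2⟩ := hok
      have hl2 := (getD_of_getElem? hd2).1
      have hlv : lv W (r + 1) = (lv W r).take k ++ (lv W r).drop (k + 2) := by
        rw [lv_succ (by omega), h]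
        rfl
      have h2 := (del_dir (l := lv W r) (k := k) (by omega)).1
      rw [nb_succ_mn (by omega) h]
      unfold kk at h1 ⊢
      rw [hlv]
      omega

theorem length_eq {W : Word} (hW : Helper27.EV2.Ok W) : W.length = 2 * maxima W := by
  have h1 := kk_eq hW W.length le_rfl
  unfold kk at h1
  rw [hW.closed, nb_length] at h1
  simp only [List.length_nil] at h1
  omega

theorem kk_le {W : Word} (hW : Helper27.EV2.Ok W) {r : ℕ} (hr : r ≤ W.length) : kk W r ≤ 2 * maxima W := by
  have h1 := kk_eq hW r hr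
  have h2 := nb_le W r hr
  have h3 := nb_mono W hr le_rfl
  rw [nb_length] at h3
  omega

/-- every birth has its row -/
theorem exists_row {W : Word} {i : ℕ} (hi : i < maxima W) :
    ∃ r < W.length, ∃ k d, (row W r).e = .mx k d ∧ nb W r = i := by
  have hex : ∃ r, r ≤ W.length ∧ i < nb W r := ⟨W.length, le_rfl, by rw [nb_length]; exact hi⟩
  classical
  obtain ⟨h1, h2⟩ := Nat.find_spec hex
  obtain ⟨m, hm⟩ : ∃ m, m = Nat.find hex := ⟨_, rfl⟩
  rw [← hm] at h1 h2
  have hmin : ∀ r < m, ¬ (r ≤ W.length ∧ i < nb W r) := fun r hr => Nat.find_min hex (hm ▸ hr)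
  have hm0 : m ≠ 0 := by
    rintro rfl
    rw [nb_zero] at h2
    omega
  obtain ⟨r, rfl⟩ := Nat.exists_eq_succ_of_ne_zero hm0
  have h3 := hmin r (Nat.lt_succ_self r)
  have h4 : nb W r ≤ i := by
    by_contra hcon
    exact h3 ⟨by omega, by omega⟩
  have hr : r < W.length := by omega
  cases h : (row W r).e with
  | mx k d =>
    refine ⟨r, hr, k, d, h, ?_⟩
    rw [Nat.succ_eq_add_one, nb_succ_mx hr h] at h2
    omega
  | mn k =>
    rw [Nat.succ_eq_add_one, nb_succ_mn hr h] at h2
    omega

/-- the first row is a maximum at the position 0 -/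
theorem first_row {W : Word} (hW : Helper27.EV2.Ok W) (h0 : 0 < W.length) : ∃ d, (row W 0).e = .mx 0 d := by
  have hok := hW.ext 0 h0
  rw [lv_zero] at hok
  cases h : (row W 0).e with
  | mx k d =>
    rw [h] at hok
    have : k ≤ 0 := hok
    refine ⟨d, ?_⟩
    rw [Nat.le_zero.1 this]
  | mn k =>
    rw [h] at hok
    obtain ⟨d, h1, _⟩ := hok
    simp at h1

/-! ### Conservation of the signed mass -/

section

variable {s : ℂ} {n : ℕ} {x : ℕ → Xt} {w : ℕ → List ℕ} {k : ℕ → ℕ} {D : ℕ → ℕ → Bool} {Y Z : ℕ → ℕ → ℂ}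

/-- the defect of an extremum -/
noncomputable def dfc (x : ℕ → Xt) (D : ℕ → ℕ → Bool) (Y : ℕ → ℕ → ℂ) (r : ℕ) : ℂ :=
  match x r with
  | .mx j => sg (D (r + 1) j) * (Y (r + 1) j - Y (r + 1) (j + 1))
  | .mn _ => 0

theorem pot_mrun {d : ℕ → Bool} {w : List ℕ} {m : ℕ} (hw : ∀ a ∈ w, d a = true ∧ d (a + 1) = true)
    (hw2 : ∀ a ∈ w, a + 1 < m) (y : ℕ → ℂ) : pot d (mrun s w y) m = pot d y m := by
  induction w generalizing y with
  | nil => rfl
  | cons a w ih =>
    have e : mrun s (a :: w) y = mrun s w (mstep s y a) := rfl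
    rw [e, ih (fun b hb => hw b (List.mem_cons_of_mem _ hb)) (fun b hb => hw2 b (List.mem_cons_of_mem _ hb))]
    obtain ⟨h1, h2⟩ := hw a (by simp)
    have h3 := hw2 a (by simp)
    exact (cr_mstep s y a).pot_ne (by rw [h1, h2]) (by omega)

theorem Chain.total_step (C : Chain s n x w k D Y Z) {r : ℕ} (hr : r < n) :
    pot (D (r + 1)) (Z (r + 1)) (k (r + 1)) = pot (D r) (Z r) (k r) + dfc x D Y r := by
  rw [C.run r hr, pot_mrun (fun a ha => (C.letters r hr a ha).2) (fun a ha => (C.letters r hr a ha).1)]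
  unfold dfc
  cases hx : x r with
  | mx j =>
    obtain ⟨h1, h2⟩ := C.mx r hr j hx
    rw [h1, h2.pot_ge h2.le le_rfl]
  | mn j =>
    obtain ⟨h1, h2, h3⟩ := C.mn r hr j hx
    rw [h1, h2.pot_ge h2.le le_rfl, h3]
    simp

theorem Chain.total (C : Chain s n x w k D Y Z) : ∑ r ∈ Finset.range n, dfc x D Y r = 0 := by
  have h : ∀ r ≤ n, pot (D r) (Z r) (k r) = ∑ i ∈ Finset.range r, dfc x D Y i := by
    intro r
    induction r with
    | zero =>
      intro _
      rw [C.k0]
      simp
    | succ r ih =>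
      intro hr
      rw [C.total_step (by omega), ih (by omega), Finset.sum_range_succ]
  have h1 := h n le_rfl
  rw [C.kn] at h1
  rw [← h1]
  simp

end

/-! ### The matrix -/

/-- the birth values of a vector -/
noncomputable def bv {m : ℕ} (v : Fin m → ℂ) : ℕ → ℂ := fun i => if h : i < m then v ⟨i, h⟩ else 0

theorem bv_apply {m : ℕ} (v : Fin m → ℂ) (i : Fin m) : bv v i = v i := by
  unfold bv
  rw [dif_pos i.2]

theorem mulVec_eq {W : Word} {t ti : ℂ} (hL : Lb W t ti) (v : Fin (maxima W) → ℂ) (i : Fin (maxima W)) :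
    ((1 - Qm W t ti ps).mulVec v) i = if (i : ℕ) = 0 then v i else v i - Q W t ti ps (bv v) i := by
  rw [Matrix.sub_mulVec, Matrix.one_mulVec, Pi.sub_apply]
  have e : (Qm W t ti ps).mulVec v i = if (i : ℕ) = 0 then 0 else Q W t ti ps (bv v) i := by
    unfold Matrix.mulVec dotProduct Helper27.EV2.Qm
    by_cases hi : (i : ℕ) = 0
    · simp [hi]
    · simp only [hi, if_false]
      rw [hL.sum]
      refine Finset.sum_congr rfl fun j _ => ?_
      rw [bv_apply, mul_comm]
  rw [e]
  split_ifs
  · rw [sub_zero]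
  · rfl

end Pool.Agent.Helper77.EV2
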