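import Pool.Agent.Helper77.EV2.RowsB

/-!
# The bounds for the small determinant of a word of rows
-/

set_option autoImplicit false

namespace Pool.Agent.Helper77.EV2

open Pool.Agent.Helper27.EV2 (Word Row Ext row lv maxima crossings flow fext nb lab Q Qm ps GG)
open Pool.Agent.Helper78.EV (ss ss_ne_zero norm_ss)

theorem YY_mx {W : Word} {r j : ℕ} {d : Bool} (h : (row W r).e = .mx j d) (s : ℂ) (ξ η : ℕ → ℂ) :
    YY W s ξ η (r + 1) j = (if d then ξ (nb W r) else η (nb W r)) ∧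
      YY W s ξ η (r + 1) (j + 1) = (if d then η (nb W r) else ξ (nb W r)) := by
  have hY : YY W s ξ η (r + 1) = Helper27.EV2.ins j (if d then ξ (nb W r) else η (nb W r))
      (if d then η (nb W r) else ξ (nb W r)) (ZZ W s ξ η r) := by
    show fext (row W r).e (nb W r) ξ η _ = _
    rw [h]
    rfl
  rw [hY]
  constructor
  · unfold Helper27.EV2.ins
    rw [if_neg (lt_irrefl j), if_pos rfl]
  · unfold Helper27.EV2.ins
    rw [if_neg (by omega : ¬ j + 1 < j), if_neg (by omega : ¬ j + 1 = j), if_pos rfl]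

theorem dd_mx {W : Word} (hW : Helper27.EV2.Ok W) {r j : ℕ} (hr : r < W.length) {d : Bool} (h : (row W r).e = .mx j d) :
    dd W (r + 1) j = d ∧ dd W (r + 1) (j + 1) = !d ∧ j + 1 < kk W (r + 1) := by
  have hok := hW.ext r hr
  rw [h] at hok
  have hok' : j ≤ (lv W r).length := hok
  have hlv : lv W (r + 1) = (lv W r).take j ++ d :: (!d) :: (lv W r).drop j := by
    rw [lv_succ hr, h]
    rfl
  obtain ⟨i1, _, i3, i4, _⟩ := ins_dir hok' d
  unfold dd kk
  rw [hlv]
  exact ⟨i3, i4, by omega⟩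

section

variable {W : Word} {s : ℂ}

theorem eta_le (hW : Helper27.EV2.Ok W) (hL : Lb W (s ^ 2) (s ^ 2)⁻¹) (hs : s ≠ 0) (hs1 : ‖s‖ ≤ 1) {N : ℕ} {K0 : ℝ}
    (hK0 : 1 ≤ K0) (H : RunBd s N K0) (hN : 2 * maxima W ≤ N) {ξ : ℕ → ℂ} {M : ℝ} (hM : 0 ≤ M) (hξ : ∀ i, ‖ξ i‖ ≤ M)
    {i : ℕ} (hi : i < maxima W) :
    ‖Q W (s ^ 2) (s ^ 2)⁻¹ ps ξ i‖ ≤ (((‖s‖⁻¹) ^ N) ^ 2 * (2 * N * K0) + 1) ^ N * M := by
  have C := chain_rows hW hL ξ
  obtain ⟨r, hr, j, d, he, hb⟩ := exists_row hi
  have hkk : ∀ r ≤ W.length, kk W r ≤ N := fun r hr => (kk_le hW hr).trans hN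
  have hlen : W.length ≤ N := by rw [length_eq hW]; exact hN
  have hup := C.upper hs hs1 hK0 H hkk hlen hM (by
    intro r hr j hx
    obtain ⟨d, he⟩ := of_xt_mx hx
    obtain ⟨d1, d2, _⟩ := dd_mx hW hr he
    obtain ⟨y1, y2⟩ := YY_mx he s ξ (Q W (s ^ 2) (s ^ 2)⁻¹ ps ξ)
    rw [d1, d2, y1, y2]
    constructor
    · intro hd
      rw [if_pos hd]
      exact hξ _
    · intro hd
      have : d = false := by simpa using hd
      rw [this]
      simp only [Bool.false_eq_true, if_false]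
      exact hξ _)
  obtain ⟨d1, d2, hlt⟩ := dd_mx hW hr he
  obtain ⟨y1, y2⟩ := YY_mx he s ξ (Q W (s ^ 2) (s ^ 2)⁻¹ ps ξ)
  rw [hb] at y1 y2
  cases d with
  | true =>
    have h1 := hup (r + 1) (by omega) (j + 1) hlt
    rw [C.up hr (by rw [d2]; rfl), y2] at h1
    simpa using h1
  | false =>
    have h1 := hup (r + 1) (by omega) j (by omega)
    rw [C.up hr d1, y1] at h1
    simpa using h1

/-- **Upper bound.** -/
theorem GG_upper (hW : Helper27.EV2.Ok W) (hL : Lb W (s ^ 2) (s ^ 2)⁻¹) (hs : s ≠ 0) (hs1 : ‖s‖ ≤ 1) {N : ℕ} {K0 : ℝ}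
    (hK0 : 1 ≤ K0) (H : RunBd s N K0) (hN : 2 * maxima W ≤ N) :
    ‖GG W (s ^ 2)‖ ≤ ((((‖s‖⁻¹) ^ N) ^ 2 * (2 * N * K0) + 1) ^ N + 1) ^ N := by
  obtain ⟨A, hA⟩ : ∃ A, A = (((‖s‖⁻¹) ^ N) ^ 2 * (2 * N * K0) + 1) ^ N := ⟨_, rfl⟩
  have hA0 : 0 ≤ A := by rw [hA]; positivity
  have h1 := (Helper48.EV2.det_of_sup (1 - Qm W (s ^ 2) (s ^ 2)⁻¹ ps) (lo := 0) (hi := A + 1) le_rfl
    (by
      intro y F hF v
      rw [zero_mul]
      exact (norm_nonneg _).trans (hF v))
    (by
      intro y M hy v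
      have hM : 0 ≤ M := (norm_nonneg _).trans (hy v)
      rw [mulVec_eq hL]
      split_ifs with h0
      · have := hy v
        nlinarith
      · have h2 := eta_le hW hL hs hs1 hK0 H hN hM (ξ := bv y) (by
          intro i
          unfold bv
          split_ifs
          · exact hy _
          · rw [norm_zero]
            exact hM) v.2
        rw [← hA] at h2
        have h3 := hy v
        refine (norm_sub_le _ _).trans ?_
        linarith)).2
  rw [Fintype.card_fin] at h1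
  rw [← hA]
  refine (le_trans (le_of_eq rfl) h1).trans ?_
  exact pow_le_pow_right₀ (by linarith) (by omega)

end

/-- **Lower bound** for connected words. -/
theorem GG_lower (b : ℕ) {Phi : ℝ} (hPhi : 0 < Phi) : ∃ th > 0, ∃ ka > 0, ∀ W : Word, Helper27.EV2.Ok W → W ≠ [] →
    Conn W.length (xt W) (fun r => (row W r).w) (kk W) → maxima W ≤ b → ∀ x y : ℝ, 0 < x → x ≤ Phi → |y| ≤ th →
      Lb W (ss x y ^ 2) (ss x y ^ 2)⁻¹ → ka * x ^ b ≤ ‖GG W (ss x y ^ 2)‖ := by
  obtain ⟨N, hN⟩ : ∃ N, N = 4 * b + 1 := ⟨_, rfl⟩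
  obtain ⟨th, hth, K, hK, H⟩ := chain_lower N (by omega) hPhi
  obtain ⟨K', hK'⟩ : ∃ K', K' = K * (N + 1) + Phi := ⟨_, rfl⟩
  have hK'0 : 0 < K' := by rw [hK']; positivity
  refine ⟨th, hth, (1 / K') ^ b, by positivity, ?_⟩
  intro W hW hne hc hb x y hx hxP hy hL
  have hlen := length_eq hW
  have hpos : 0 < W.length := List.length_pos_iff.2 hne
  have hmax : 0 < maxima W := by omega
  obtain ⟨d0, he0⟩ := first_row hW hpos
  have hn1 : nb W 1 = 1 := by
    rw [show (1 : ℕ) = 0 + 1 from rfl, nb_succ_mx hpos he0, nb_zero]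
  have hlo : ∀ v : Fin (maxima W) → ℂ, ∀ F : ℝ,
      (∀ i, ‖((1 - Qm W (ss x y ^ 2) (ss x y ^ 2)⁻¹ ps).mulVec v) i‖ ≤ F) → ∀ i, x / K' * ‖v i‖ ≤ F := by
    intro v F hF i
    obtain ⟨ξ, hξ⟩ : ∃ ξ, ξ = bv v := ⟨_, rfl⟩
    obtain ⟨η, hη⟩ : ∃ η, η = Q W (ss x y ^ 2) (ss x y ^ 2)⁻¹ ps ξ := ⟨_, rfl⟩
    have C := chain_rows hW hL ξ
    rw [← hη] at C
    have hF0 : 0 ≤ F := (norm_nonneg _).trans (hF i)
    have hN1 : (1 : ℝ) ≤ N := by rw [hN]; push_cast; nlinarith [(Nat.cast_nonneg b : (0 : ℝ) ≤ b)]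
    -- the base
    have hb0 : ‖ξ 0‖ ≤ F := by
      have h1 := hF ⟨0, hmax⟩
      rw [mulVec_eq hL, if_pos rfl] at h1
      rw [hξ, ← bv_apply v ⟨0, hmax⟩] at *
      exact h1
    have hbi : ∀ a, 1 ≤ a → a < maxima W → ‖ξ a - η a‖ ≤ F := by
      intro a ha ha2
      have h1 := hF ⟨a, ha2⟩
      rw [mulVec_eq hL, if_neg (by simpa using (by omega : a ≠ 0))] at h1
      have e : v ⟨a, ha2⟩ = ξ a := by rw [hξ, ← bv_apply v ⟨a, ha2⟩]
      rw [e, ← hξ, ← hη] at h1
      exact h1
    -- the defects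
    have hdf : ∀ r < W.length, ∀ j d, (row W r).e = .mx j d →
        dfc (xt W) (dd W) (YY W (ss x y) ξ η) r = ξ (nb W r) - η (nb W r) := by
      intro r hr j d he
      unfold dfc
      rw [xt_mx he]
      obtain ⟨d1, _, _⟩ := dd_mx hW hr he
      obtain ⟨y1, y2⟩ := YY_mx he (ss x y) ξ η
      simp only [d1, y1, y2]
      cases d <;> simp
    have hdf0 : ∀ r < W.length, 1 ≤ r → ‖dfc (xt W) (dd W) (YY W (ss x y) ξ η) r‖ ≤ F := by
      intro r hr hr1
      cases he : (row W r).e with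
      | mx j d =>
        rw [hdf r hr j d he]
        have h1 := nb_mono W hr1 hr.le
        have h2 := nb_mono W (show r + 1 ≤ W.length by omega) le_rfl
        rw [nb_length, nb_succ_mx hr he] at h2
        rw [hn1] at h1
        exact hbi _ h1 (by omega)
      | mn j =>
        unfold dfc
        rw [xt_mn he]
        simpa using hF0
    have hd0 : ‖dfc (xt W) (dd W) (YY W (ss x y) ξ η) 0‖ ≤ N * F := by
      have h1 := C.total
      obtain ⟨m, hm⟩ : ∃ m, W.length = m + 1 := ⟨W.length - 1, by omega⟩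
      rw [hm, Finset.sum_range_succ'] at h1
      have h2 : dfc (xt W) (dd W) (YY W (ss x y) ξ η) 0 =
          -∑ r ∈ Finset.range m, dfc (xt W) (dd W) (YY W (ss x y) ξ η) (r + 1) :=
        eq_neg_of_add_eq_zero_right h1
      rw [h2, norm_neg]
      refine (norm_sum_le _ _).trans ?_
      have h3 : ∀ r ∈ Finset.range m, ‖dfc (xt W) (dd W) (YY W (ss x y) ξ η) (r + 1)‖ ≤ F := by
        intro r hr
        rw [Finset.mem_range] at hr
        exact hdf0 (r + 1) (by omega) (by omega)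
      refine (Finset.sum_le_card_nsmul _ _ _ h3).trans ?_
      rw [Finset.card_range, nsmul_eq_mul]
      apply mul_le_mul_of_nonneg_right _ hF0
      exact_mod_cast (by omega : m ≤ N)
    have hd0' : ‖ξ 0 - η 0‖ ≤ N * F := by
      have := hdf 0 hpos 0 d0 he0
      rw [nb_zero] at this
      rw [← this]
      exact hd0
    have hall : ∀ r < W.length, ∀ j d, (row W r).e = .mx j d → ‖ξ (nb W r) - η (nb W r)‖ ≤ N * F := by
      intro r hr j d he
      rcases Nat.eq_zero_or_pos r with h0 | h0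
      · subst h0
        rw [nb_zero]
        exact hd0'
      · rw [← hdf r hr j d he]
        refine (hdf0 r hr h0).trans ?_
        nlinarith
    have h5 := H x y hx hxP hy W.length (xt W) (fun r => (row W r).w) (kk W) (dd W) _ _ C hpos (by omega)
      (fun r hr => (kk_le hW hr).trans (by omega))
      (by
        have := (dd_mx hW hpos he0).2.2
        show 0 < kk W (0 + 1)
        omega) hc ((N + 1) * F)
      (by
        have y1 := (YY_mx he0 (ss x y) ξ η).1
        rw [show (1 : ℕ) = 0 + 1 from rfl, y1, nb_zero]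
        cases d0 with
        | true =>
          simp only [if_true]
          nlinarith
        | false =>
          simp only [Bool.false_eq_true, if_false]
          have e : η 0 = ξ 0 - (ξ 0 - η 0) := by ring
          rw [e]
          refine (norm_sub_le _ _).trans ?_
          linarith)
      (by
        intro r hr j hxj
        obtain ⟨d, he⟩ := of_xt_mx hxj
        obtain ⟨y1, y2⟩ := YY_mx he (ss x y) ξ η
        rw [y1, y2]
        have h6 := hall r hr j d he
        cases d with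
        | true =>
          simp only [if_true]
          nlinarith
        | false =>
          simp only [Bool.false_eq_true, if_false]
          rw [norm_sub_rev]
          nlinarith)
    obtain ⟨r, hr, j, d, he, hbr⟩ := exists_row i.2
    obtain ⟨_, _, hlt⟩ := dd_mx hW hr he
    obtain ⟨y1, y2⟩ := YY_mx he (ss x y) ξ η
    have h6 : ‖ξ i‖ ≤ K / x * ((N + 1) * F) := by
      cases d with
      | true =>
        have := h5 r hr j (by omega)
        rw [y1, hbr] at this
        simpa using this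
      | false =>
        have := h5 r hr (j + 1) hlt
        rw [y2, hbr] at this
        simpa using this
    have h7 : ξ i = v i := by rw [hξ, bv_apply]
    rw [h7] at h6
    have h8 : x / K' * ‖v i‖ ≤ x / K' * (K / x * ((N + 1) * F)) :=
      mul_le_mul_of_nonneg_left h6 (by positivity)
    refine h8.trans ?_
    have e : x / K' * (K / x * ((N + 1) * F)) = (K * (N + 1)) / K' * F := by
      field_simp
    rw [e]
    have h9 : K * (N + 1) / K' ≤ 1 := by
      rw [div_le_one hK'0, hK']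
      linarith
    calc K * (N + 1) / K' * F ≤ 1 * F := mul_le_mul_of_nonneg_right h9 hF0
      _ = F := one_mul F
  have h1 := (Helper48.EV2.det_of_sup (1 - Qm W (ss x y ^ 2) (ss x y ^ 2)⁻¹ ps) (lo := x / K')
    (hi := ∑ a, ∑ a', ‖(1 - Qm W (ss x y ^ 2) (ss x y ^ 2)⁻¹ ps) a a'‖) (by positivity) hlo
    (by
      intro y' M hy' v
      have hM : 0 ≤ M := (norm_nonneg _).trans (hy' v)
      rw [Finset.sum_mul]
      refine le_trans ?_ (Finset.single_le_sum (f := fun a => (∑ a', ‖(1 - Qm W (ss x y ^ 2) (ss x y ^ 2)⁻¹ ps) a a'‖) * M)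
        (fun a _ => by positivity) (Finset.mem_univ v))
      unfold Matrix.mulVec dotProduct
      rw [Finset.sum_mul]
      refine (norm_sum_le _ _).trans (Finset.sum_le_sum fun a _ => ?_)
      rw [norm_mul]
      exact mul_le_mul_of_nonneg_left (hy' a) (norm_nonneg _))).1
  rw [Fintype.card_fin] at h1
  have h2 : x / K' ≤ 1 := by
    rw [div_le_one hK'0, hK']
    have : 0 ≤ K * (N + 1) := by positivity
    linarith
  have h3 : (x / K') ^ b ≤ (x / K') ^ maxima W := pow_le_pow_of_le_one (by positivity) h2 hb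
  have e : (1 / K') ^ b * x ^ b = (x / K') ^ b := by
    rw [← mul_pow]
    congr 1
    ring
  rw [e]
  exact h3.trans h1

end Pool.Agent.Helper77.EV2
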